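import Pool.Agent.TH935.LP.W3

set_option autoImplicit false

/-! The summatory function of the divisor function `d_k` and its main term. -/

namespace Pool.Agent.Y853.PZ

open Filter Topology Set Polynomial

noncomputable def D (k : ℕ) (x : ℝ) : ℝ :=
  ∑ n ∈ Finset.Icc 1 ⌊x⌋₊, ((((ArithmeticFunction.zeta : ArithmeticFunction ℕ) ^ k) n : ℕ) : ℝ)

theorem D_mono (k : ℕ) {x y : ℝ} (h : x ≤ y) : D k x ≤ D k y := by
  unfold D
  exact Finset.sum_le_sum_of_subset_of_nonneg (Finset.Icc_subset_Icc le_rfl (Nat.floor_mono h))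
    fun _ _ _ => Nat.cast_nonneg _

theorem D_nonneg (k : ℕ) (x : ℝ) : 0 ≤ D k x := Finset.sum_nonneg fun _ _ => Nat.cast_nonneg _

theorem D_meas (k : ℕ) : Measurable (D k) := by
  have : D k = (fun m : ℕ => ∑ n ∈ Finset.Icc 1 m,
      ((((ArithmeticFunction.zeta : ArithmeticFunction ℕ) ^ k) n : ℕ) : ℝ)) ∘ (fun x : ℝ => ⌊x⌋₊) := rfl
  rw [this]
  exact measurable_from_nat.comp Nat.measurable_floor

theorem exists_main {k : ℕ} (hk : 1 ≤ k) : ∃ P : ℝ[X], ∃ C δ : ℝ, 0 ≤ C ∧ 0 < δ ∧ δ ≤ 1 / 2 ∧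
    ∀ x : ℝ, 1 ≤ x → |D k x - x * P.eval (Real.log x)| ≤ C * x ^ (1 - δ) := by
  obtain ⟨r, rfl⟩ : ∃ r, k = r + 1 := ⟨k - 1, by omega⟩
  obtain ⟨P, -, C, δ, hC, hδ, h⟩ := TH935.LP.piltz r
  refine ⟨P, C, min δ (1 / 2), hC, by positivity, min_le_right _ _, fun x hx => ?_⟩
  have hx0 : 0 < x := by linarith
  have h1 : |D (r + 1) x / x - P.eval (Real.log x)| ≤ C * x ^ (-δ) := h x hx
  have h3 : D (r + 1) x - x * P.eval (Real.log x) = x * (D (r + 1) x / x - P.eval (Real.log x)) := by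
    field_simp
  rw [h3, abs_mul, abs_of_pos hx0]
  calc x * |D (r + 1) x / x - P.eval (Real.log x)| ≤ x * (C * x ^ (-δ)) := by gcongr
    _ = C * (x ^ (1 : ℝ) * x ^ (-δ)) := by rw [Real.rpow_one]; ring
    _ = C * x ^ (1 + -δ) := by rw [Real.rpow_add hx0]
    _ ≤ C * x ^ (1 - min δ (1 / 2)) := by
        apply mul_le_mul_of_nonneg_left _ hC
        apply Real.rpow_le_rpow_of_exponent_le hx
        have := min_le_left δ (1 / 2)
        linarith

/-- the main term is determined up to `o(x)` -/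
def IsMain (k : ℕ) (P : ℝ[X]) : Prop :=
  Tendsto (fun x : ℝ => (D k x - x * P.eval (Real.log x)) / x) atTop (𝓝 0)

theorem isMain_of {k : ℕ} {P : ℝ[X]} {C δ : ℝ} (hδ : 0 < δ)
    (h : ∀ x : ℝ, 1 ≤ x → |D k x - x * P.eval (Real.log x)| ≤ C * x ^ (1 - δ)) : IsMain k P := by
  unfold IsMain
  have h1 : Tendsto (fun x : ℝ => C * x ^ (-δ)) atTop (𝓝 0) := by
    simpa using (tendsto_rpow_neg_atTop hδ).const_mul C
  refine squeeze_zero_norm' ?_ h1
  filter_upwards [eventually_ge_atTop 1] with x hx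
  have hx0 : 0 < x := by linarith
  rw [Real.norm_eq_abs, abs_div, abs_of_pos hx0, div_le_iff₀ hx0]
  refine (h x hx).trans (le_of_eq ?_)
  rw [sub_eq_neg_add, Real.rpow_add hx0, Real.rpow_one]
  ring

theorem main_unique {k : ℕ} {P Q : ℝ[X]} (hP : IsMain k P) (hQ : IsMain k Q) : P = Q := by
  have h1 : Tendsto (fun x : ℝ => (Q - P).eval (Real.log x)) atTop (𝓝 0) := by
    have h2 := hP.sub hQ
    rw [sub_zero] at h2
    refine h2.congr' ?_
    filter_upwards [eventually_gt_atTop 0] with x hx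
    rw [eval_sub]
    field_simp
    ring
  have h3 : Tendsto (fun x : ℝ => (Q - P).eval x) atTop (𝓝 0) := by
    have h4 := h1.comp Real.tendsto_exp_atTop
    refine h4.congr fun x => ?_
    simp only [Function.comp_apply, Real.log_exp]
  have h5 := (Polynomial.tendsto_nhds_iff (Q - P)).1 h3
  have h6 : Q - P = 0 := leadingCoeff_eq_zero.1 h5.1
  exact (sub_eq_zero.1 h6).symm

theorem existsUnique_main {k : ℕ} (hk : 1 ≤ k) : ∃! P : ℝ[X], IsMain k P := by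
  obtain ⟨P, C, δ, hC, hδ, -, h⟩ := exists_main hk
  exact ⟨P, isMain_of hδ h, fun Q hQ => main_unique hQ (isMain_of hδ h)⟩

theorem main_bd {k : ℕ} (hk : 1 ≤ k) {P : ℝ[X]} (hP : IsMain k P) : ∃ C δ : ℝ, 0 ≤ C ∧ 0 < δ ∧
    δ ≤ 1 / 2 ∧ ∀ x : ℝ, 1 ≤ x → |D k x - x * P.eval (Real.log x)| ≤ C * x ^ (1 - δ) := by
  obtain ⟨Q, C, δ, hC, hδ, hδ2, h⟩ := exists_main hk
  have : P = Q := main_unique hP (isMain_of hδ h)
  rw [this]
  exact ⟨C, δ, hC, hδ, hδ2, h⟩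

theorem D_le {k : ℕ} (hk : 1 ≤ k) {ε : ℝ} (hε : 0 < ε) : ∃ C : ℝ, 0 ≤ C ∧ ∀ x : ℝ, 1 ≤ x →
    D k x ≤ C * x ^ (1 + ε) := by
  obtain ⟨P, C, δ, hC, hδ, -, h⟩ := exists_main hk
  obtain ⟨C2, hC2, h2⟩ := TH935.LP.poly_bd P ε hε
  refine ⟨C + C2, by positivity, fun x hx => ?_⟩
  have hx0 : 0 < x := by linarith
  have h3 := (abs_le.1 (h x hx)).2
  have h4 := (abs_le.1 (h2 x hx)).2
  have h5 : x ^ (1 - δ) ≤ x ^ (1 + ε) := Real.rpow_le_rpow_of_exponent_le hx (by linarith)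
  have h6 : x * P.eval (Real.log x) ≤ C2 * x ^ (1 + ε) := by
    rw [Real.rpow_add hx0, Real.rpow_one]
    calc x * P.eval (Real.log x) ≤ x * (C2 * x ^ ε) := by gcongr
      _ = _ := by ring
  calc D k x ≤ C * x ^ (1 - δ) + x * P.eval (Real.log x) := by linarith
    _ ≤ C * x ^ (1 + ε) + C2 * x ^ (1 + ε) := by gcongr
    _ = _ := by ring

end Pool.Agent.Y853.PZ
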