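import Pool.Agent.Y853.PZ.Zer

set_option autoImplicit false

namespace Pool.Agent.Y853.PZ

open Filter Topology Set Polynomial MeasureTheory

/-- covering of a wide window by windows of length `2` -/
theorem few_cover (F : ℂ → ℂ) {η W : ℝ} (hη : 0 < η) : ∃ ε' : ℝ, 0 < ε' ∧ ∀ θ : ℝ,
    ((∃ T0 : ℝ, ∀ T : ℝ, T0 ≤ T → LC.Few F θ ε' T 1) →
      ∃ T0 : ℝ, ∀ T : ℝ, T0 ≤ T → LC.Few F θ η T W) := by
  classical
  obtain ⟨N, hN⟩ := exists_nat_gt W
  have hN0 : (0 : ℝ) ≤ N := Nat.cast_nonneg _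
  obtain ⟨ε', hε', hε'1, hε'2⟩ : ∃ ε' : ℝ, 0 < ε' ∧ ε' ≤ η ∧ ε' * (2 * (2 * N + 1)) ≤ η := by
    refine ⟨η / (2 * (2 * N + 1)), by positivity, ?_, ?_⟩
    · apply div_le_self hη.le
      linarith
    · exact le_of_eq (div_mul_cancel₀ _ (by positivity))
  refine ⟨ε', hε', fun θ h => ?_⟩
  obtain ⟨T2, h2⟩ := h
  refine ⟨max (T2 + N) (2 * N + 2), fun T hT => ?_⟩
  have g2 : T2 + N ≤ T := (le_max_left _ _).trans hT
  have g3 : 2 * (N : ℝ) + 2 ≤ T := (le_max_right _ _).trans hT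
  intro S hS
  obtain ⟨v, hv⟩ : ∃ v : ℕ → ℝ, v = fun j : ℕ => T - N + (j : ℝ) := ⟨_, rfl⟩
  have hvj : ∀ j ∈ Finset.range (2 * N + 1), T - N ≤ v j ∧ v j ≤ T + N := by
    intro j hj
    rw [Finset.mem_range] at hj
    have h4 : (j : ℝ) ≤ 2 * N := by exact_mod_cast Nat.lt_succ_iff.1 hj
    have h5 : (0 : ℝ) ≤ j := Nat.cast_nonneg _
    rw [hv]
    constructor <;> simp only <;> linarith
  have hcov : ∀ w ∈ S, ∃ j ∈ Finset.range (2 * N + 1), |w.im - v j| ≤ 1 := by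
    intro w hw
    obtain ⟨-, -, -, g5⟩ := hS w hw
    rw [abs_le] at g5
    have h0 : 0 ≤ w.im - (T - N) := by linarith
    refine ⟨⌊w.im - (T - N)⌋₊, ?_, ?_⟩
    · rw [Finset.mem_range, Nat.floor_lt h0]
      push_cast
      linarith
    · have h4 := Nat.floor_le h0
      have h5 := Nat.lt_floor_add_one (w.im - (T - N))
      rw [hv, abs_le]
      constructor <;> simp only <;> linarith
  have hone : ∀ j ∈ Finset.range (2 * N + 1), ∑ w ∈ S.filter (fun w => |w.im - v j| ≤ 1),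
      (analyticOrderNatAt F w : ℝ) ≤ ε' * (2 * Real.log T) := by
    intro j hj
    obtain ⟨h6, h7⟩ := hvj j hj
    refine (h2 (v j) (by linarith) _ fun w hw => ?_).trans ?_
    · rw [Finset.mem_filter] at hw
      obtain ⟨g4, g5, g6, -⟩ := hS w hw.1
      exact ⟨g4, g5, by linarith, hw.2⟩
    · have h8 : Real.log (v j) ≤ 2 * Real.log T := by
        have h9 : Real.log (v j) ≤ Real.log (2 * T) := Real.log_le_log (by linarith) (by linarith)
        rw [Real.log_mul (by norm_num) (by linarith)] at h9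
        have h10 : Real.log 2 ≤ Real.log T := Real.log_le_log (by norm_num) (by linarith)
        linarith
      gcongr
  calc ∑ w ∈ S, (analyticOrderNatAt F w : ℝ)
      ≤ ∑ w ∈ S, ∑ j ∈ Finset.range (2 * N + 1),
          if |w.im - v j| ≤ 1 then (analyticOrderNatAt F w : ℝ) else 0 := by
        refine Finset.sum_le_sum fun w hw => ?_
        obtain ⟨j, hj, hj2⟩ := hcov w hw
        calc (analyticOrderNatAt F w : ℝ)
            = if |w.im - v j| ≤ 1 then (analyticOrderNatAt F w : ℝ) else 0 := by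
              rw [if_pos hj2]
          _ ≤ _ := Finset.single_le_sum (f := fun j => if |w.im - v j| ≤ 1 then
              (analyticOrderNatAt F w : ℝ) else 0) (fun i _ => by
                split_ifs <;> positivity) hj
    _ = ∑ j ∈ Finset.range (2 * N + 1), ∑ w ∈ S.filter (fun w => |w.im - v j| ≤ 1),
          (analyticOrderNatAt F w : ℝ) := by
        rw [Finset.sum_comm]
        refine Finset.sum_congr rfl fun j _ => ?_
        rw [Finset.sum_filter]
    _ ≤ ∑ j ∈ Finset.range (2 * N + 1), ε' * (2 * Real.log T) := Finset.sum_le_sum hone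
    _ = (2 * N + 1) * (ε' * (2 * Real.log T)) := by
        rw [Finset.sum_const, nsmul_eq_mul, Finset.card_range]; push_cast; ring
    _ = (ε' * (2 * (2 * N + 1))) * Real.log T := by ring
    _ ≤ η * Real.log T := by
        have : 0 ≤ Real.log T := Real.log_nonneg (by linarith)
        gcongr

/-- few zeros in windows of length `2` give a good exponent -/
theorem sup_of_few1 {k : ℕ} (hk : 1 ≤ k) {P : ℝ[X]} (hP : IsMain k P) {Q : ℂ[X]} {A : ℂ → ℂ}
    (hQ : Q ≠ 0) (hA : SP.Tame A) {ε : ℝ} (hε : 0 < ε) :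
    ∃ η : ℝ, 0 < η ∧ ∀ θ : ℝ, 1 / 2 ≤ θ → θ ≤ 1 →
      (∃ T0 : ℝ, ∀ T : ℝ, T0 ≤ T → LC.Few (SP.FF Q A) θ η T 1) →
      ∃ C : ℝ, ∀ x : ℝ, 1 ≤ x → |R k P x| ≤ C * x ^ (θ + ε) := by
  obtain ⟨η, W, hη, -, h⟩ := sup_of_few hk hP hQ hA hε
  obtain ⟨η', hη', h'⟩ := few_cover (SP.FF Q A) (W := W) hη
  exact ⟨η', hη', fun θ h1 h2 h3 => h θ h1 h2 (h' θ h3)⟩

end Pool.Agent.Y853.PZ
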