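import Pool.Agent.H52R4.PZT1
import Pool.Agent.H388LH.ZG

set_option autoImplicit false

/-! From a line to the half plane to its right; the Lindelöf hypothesis. -/

namespace Pool.Agent.Y853.PZ

open Filter Topology Set Complex

theorem zeta_two_bd : ∃ B : ℝ, 1 ≤ B ∧ ∀ s : ℂ, 2 ≤ s.re → ‖riemannZeta s‖ ≤ B := by
  have hs : Summable (fun n : ℕ => 1 / ((n : ℝ) + 1) ^ 2) := by
    have := (summable_nat_add_iff (f := fun n : ℕ => 1 / (n : ℝ) ^ 2) 1).2
      (Real.summable_one_div_nat_pow.2 (by norm_num))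
    simpa using this
  refine ⟨max 1 (∑' n : ℕ, 1 / ((n : ℝ) + 1) ^ 2), le_max_left _ _, fun s h2 => ?_⟩
  rw [zeta_eq_tsum_one_div_nat_add_one_cpow (by linarith)]
  refine (tsum_of_norm_bounded hs.hasSum fun n => ?_).trans (le_max_right _ _)
  have hn : (0 : ℝ) < (n : ℝ) + 1 := by positivity
  have e : ((n : ℂ) + 1) = (((n : ℝ) + 1 : ℝ) : ℂ) := by push_cast; rfl
  rw [e, norm_div, norm_one, Complex.norm_cpow_eq_rpow_re_of_pos hn, ← Real.rpow_natCast]
  apply one_div_le_one_div_of_le (by positivity)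
  exact Real.rpow_le_rpow_of_exponent_le (by linarith [Nat.cast_nonneg (α := ℝ) n]) (by exact_mod_cast h2)

theorem norm_add_two {z : ℂ} (hz : 0 ≤ z.re) : |z.im| ≤ ‖z + 2‖ ∧ ‖z - 1‖ ≤ ‖z + 2‖ ∧ 2 ≤ ‖z + 2‖ := by
  refine ⟨?_, ?_, ?_⟩
  · have := Complex.abs_im_le_norm (z + 2)
    simpa using this
  · rw [Complex.norm_def, Complex.norm_def]
    apply Real.sqrt_le_sqrt
    rw [Complex.normSq_apply, Complex.normSq_apply]
    simp
    nlinarith
  · have := Complex.re_le_norm (z + 2)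
    simp at this
    linarith

/-- a bound on a line moves to the right -/
theorem strip {σ ε C : ℝ} (hσ0 : 0 ≤ σ) (hσ : σ < 2) (hε : 0 ≤ ε)
    (h : ∀ t : ℝ, 1 ≤ |t| → ‖riemannZeta (σ + t * I)‖ ≤ C * |t| ^ ε) :
    ∃ C' : ℝ, 0 ≤ C' ∧ ∀ z : ℂ, σ ≤ z.re → z.re ≤ 2 → 1 ≤ |z.im| → ‖riemannZeta z‖ ≤ C' * |z.im| ^ ε := by
  obtain ⟨B, hB1, hB⟩ := zeta_two_bd
  obtain ⟨A, hA0, hA⟩ := H52R4.PZT1.zeta_strip
  obtain ⟨f, hf⟩ : ∃ f : ℂ → ℂ, f = fun z => riemannZeta₁ z * (z + 2) ^ ((-(1 + ε) : ℝ) : ℂ) := ⟨_, rfl⟩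
  have hslit : ∀ z : ℂ, 0 ≤ z.re → z + 2 ∈ slitPlane := by
    intro z hz
    left
    simp
    linarith
  have hfd : ∀ z : ℂ, 0 ≤ z.re → DifferentiableAt ℂ f z := by
    intro z hz
    rw [hf]
    exact (differentiable_riemannZeta₁ z).mul ((differentiableAt_id.add_const 2).cpow_const (hslit z hz))
  have hfn : ∀ z : ℂ, ‖f z‖ = ‖riemannZeta₁ z‖ * ‖z + 2‖ ^ (-(1 + ε)) := by
    intro z
    rw [hf, norm_mul, Complex.norm_cpow_real]
  have hz1 : ∀ z : ℂ, z ≠ 1 → ‖riemannZeta₁ z‖ = ‖z - 1‖ * ‖riemannZeta z‖ := by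
    intro z hz
    rw [riemannZeta_eq_inv_sub_mul hz, norm_mul, norm_inv]
    have : ‖z - 1‖ ≠ 0 := norm_ne_zero_iff.2 (sub_ne_zero.2 hz)
    field_simp
  -- compactness on the low part
  have hcomp : IsCompact (Icc σ 2 ×ℂ Icc (-1) 1) := isCompact_Icc.reProdIm isCompact_Icc
  obtain ⟨M, hM⟩ := hcomp.exists_bound_of_continuousOn (f := f) (fun z hz => by
    rw [Complex.mem_reProdIm] at hz
    exact (hfd z (by linarith [hz.1.1])).continuousAt.continuousWithinAt)
  -- high part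
  have hhigh : ∀ z : ℂ, 0 ≤ z.re → 1 ≤ |z.im| → ∀ X : ℝ, 0 ≤ X → ‖riemannZeta z‖ ≤ X * |z.im| ^ ε →
      ‖f z‖ ≤ X := by
    intro z hz h1 X hX hX2
    obtain ⟨g1, g2, g3⟩ := norm_add_two hz
    have hne : z ≠ 1 := by rintro rfl; simp at h1; linarith
    have hpos : 0 < ‖z + 2‖ := by linarith
    rw [hfn, hz1 z hne, neg_add, Real.rpow_add hpos, Real.rpow_neg hpos.le, Real.rpow_neg hpos.le,
      Real.rpow_one]
    have h2 : |z.im| ^ ε ≤ ‖z + 2‖ ^ ε := Real.rpow_le_rpow (abs_nonneg _) g1 hε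
    have h3 : ‖z - 1‖ * ‖riemannZeta z‖ ≤ ‖z + 2‖ * (X * ‖z + 2‖ ^ ε) := by
      gcongr
      exact hX2.trans (by gcongr)
    have h4 : 0 < ‖z + 2‖ ^ ε := by positivity
    calc ‖z - 1‖ * ‖riemannZeta z‖ * (‖z + 2‖⁻¹ * (‖z + 2‖ ^ ε)⁻¹)
        ≤ ‖z + 2‖ * (X * ‖z + 2‖ ^ ε) * (‖z + 2‖⁻¹ * (‖z + 2‖ ^ ε)⁻¹) := by gcongr
      _ = X := by field_simp
  obtain ⟨X, hX0, hXM, hXC, hXB⟩ : ∃ X : ℝ, 0 ≤ X ∧ M ≤ X ∧ C ≤ X ∧ B ≤ X :=
    ⟨max (max M C) B, (by linarith : (0 : ℝ) ≤ B).trans (le_max_right _ _),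
      (le_max_left _ _).trans (le_max_left _ _), (le_max_right _ _).trans (le_max_left _ _),
      le_max_right _ _⟩
  have key : ∀ z : ℂ, σ ≤ z.re → z.re ≤ 2 → ‖f z‖ ≤ X := by
    intro z h1 h2
    refine PhragmenLindelof.vertical_strip (a := σ) (b := 2) (C := X) ?_ ?_ ?_ ?_ h1 h2
    · refine DifferentiableOn.diffContOnCl fun w hw => ?_
      have hw1 : w ∈ Complex.re ⁻¹' (Icc σ 2) := by
        have h3 := closure_minimal (s := Complex.re ⁻¹' (Ioo σ 2)) (t := Complex.re ⁻¹' (Icc σ 2))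
          (preimage_mono Ioo_subset_Icc_self) (isClosed_Icc.preimage Complex.continuous_re)
        exact h3 hw
      exact (hfd w (by linarith [hw1.1])).differentiableWithinAt
    · obtain ⟨c, hc, hc2⟩ : ∃ c : ℝ, 0 < c ∧ c < Real.pi / (2 - σ) :=
        ⟨Real.pi / (2 - σ) / 2, by
          have : 0 < Real.pi / (2 - σ) := div_pos Real.pi_pos (by linarith)
          linarith, by
          have : 0 < Real.pi / (2 - σ) := div_pos Real.pi_pos (by linarith)
          linarith⟩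
      refine ⟨c, hc2, 1, Asymptotics.IsBigO.of_bound (A * (2 / c ^ 2)) ?_⟩
      have e1 : ∀ᶠ w : ℂ in comap (_root_.abs ∘ Complex.im) atTop, 1 ≤ |w.im| :=
        tendsto_comap.eventually (eventually_ge_atTop 1)
      have e2 : ∀ᶠ w : ℂ in 𝓟 (Complex.re ⁻¹' (Ioo σ 2)), w ∈ Complex.re ⁻¹' (Ioo σ 2) :=
        eventually_principal.2 fun _ h => h
      filter_upwards [e1.filter_mono inf_le_left, e2.filter_mono inf_le_right] with w hw1 hw2
      have hw3 : σ < w.re := hw2.1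
      have hw4 : w.re < 2 := hw2.2
      have h5 := hA w (by linarith) hw4.le hw1
      obtain ⟨g1, g2, g3⟩ := norm_add_two (z := w) (by linarith)
      have hne : w ≠ 1 := by rintro rfl; simp at hw1; linarith
      have hpos : 0 < ‖w + 2‖ := by linarith
      have h6 : ‖f w‖ ≤ ‖riemannZeta w‖ := by
        rw [hfn, hz1 w hne, neg_add, Real.rpow_add hpos, Real.rpow_neg hpos.le, Real.rpow_neg hpos.le,
          Real.rpow_one]
        have h7 : (‖w + 2‖ ^ ε)⁻¹ ≤ 1 := inv_le_one_of_one_le₀ (Real.one_le_rpow (by linarith) hε)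
        have h8 : ‖w - 1‖ * ‖w + 2‖⁻¹ ≤ 1 := by
          rw [← div_eq_mul_inv]
          exact (div_le_one hpos).2 g2
        calc ‖w - 1‖ * ‖riemannZeta w‖ * (‖w + 2‖⁻¹ * (‖w + 2‖ ^ ε)⁻¹)
            = (‖w - 1‖ * ‖w + 2‖⁻¹) * (‖w + 2‖ ^ ε)⁻¹ * ‖riemannZeta w‖ := by ring
          _ ≤ 1 * 1 * ‖riemannZeta w‖ := by gcongr
          _ = _ := by ring
      have h9 : |w.im| ^ 2 ≤ 2 / c ^ 2 * Real.exp (1 * Real.exp (c * |w.im|)) := by
        have q1 := Real.quadratic_le_exp_of_nonneg (x := c * |w.im|) (by positivity)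
        have q2 : Real.exp (c * |w.im|) ≤ Real.exp (1 * Real.exp (c * |w.im|)) := by
          apply Real.exp_le_exp.2
          have := Real.add_one_le_exp (c * |w.im|)
          linarith
        rw [div_mul_eq_mul_div, le_div_iff₀ (by positivity)]
        have q3 : 0 ≤ c * |w.im| := by positivity
        nlinarith
      rw [Real.norm_of_nonneg (Real.exp_pos _).le]
      calc ‖f w‖ ≤ A * |w.im| ^ 2 := h6.trans h5
        _ ≤ A * (2 / c ^ 2 * Real.exp (1 * Real.exp (c * |w.im|))) := by gcongr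
        _ = _ := by ring
    · intro w hw
      rcases le_or_gt 1 |w.im| with h3 | h3
      · refine hhigh w (by linarith) h3 X hX0 ?_
        have h4 := h w.im h3
        have e : (σ : ℂ) + w.im * I = w := by
          rw [← hw]; exact Complex.re_add_im w
        rw [e] at h4
        exact h4.trans (by gcongr)
      · refine (hM w ?_).trans hXM
        rw [Complex.mem_reProdIm]
        exact ⟨⟨hw.ge, by rw [hw]; exact hσ.le⟩, abs_le.1 h3.le⟩
    · intro w hw
      rcases le_or_gt 1 |w.im| with h3 | h3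
      · refine hhigh w (by rw [hw]; norm_num) h3 X hX0 ?_
        have h4 := hB w hw.ge
        have h5 : 1 ≤ |w.im| ^ ε := Real.one_le_rpow h3 hε
        nlinarith
      · refine (hM w ?_).trans hXM
        rw [Complex.mem_reProdIm]
        exact ⟨⟨by rw [hw]; exact hσ.le, hw.le⟩, abs_le.1 h3.le⟩
  refine ⟨5 * X * (5 : ℝ) ^ ε, by positivity, fun z h1 h2 h3 => ?_⟩
  have h4 := key z h1 h2
  obtain ⟨g1, g2, g3⟩ := norm_add_two (z := z) (by linarith)
  have hne : z ≠ 1 := by rintro rfl; simp at h3; linarith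
  have hpos : 0 < ‖z + 2‖ := by linarith
  have ht : 0 < |z.im| := by linarith
  have g4 : ‖z + 2‖ ≤ 5 * |z.im| := by
    have g5 := Complex.norm_le_abs_re_add_abs_im (z + 2)
    have g6 : |(z + 2).re| ≤ 4 := by
      rw [Complex.add_re]
      exact abs_le.2 ⟨by simp; linarith, by simp; linarith⟩
    have g7 : |(z + 2).im| = |z.im| := by simp
    linarith
  have g8 : |z.im| ≤ ‖z - 1‖ := by
    have := Complex.abs_im_le_norm (z - 1)
    simpa using this
  rw [hfn, hz1 z hne, Real.rpow_neg hpos.le, ← div_eq_mul_inv, div_le_iff₀ (by positivity)] at h4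
  have h5 : ‖z + 2‖ ^ (1 + ε) ≤ (5 * |z.im|) ^ (1 + ε) := Real.rpow_le_rpow hpos.le g4 (by linarith)
  have h6 : (5 * |z.im|) ^ (1 + ε) = 5 * (5 : ℝ) ^ ε * |z.im| ^ ε * |z.im| := by
    rw [Real.mul_rpow (by norm_num) ht.le, Real.rpow_add (by norm_num), Real.rpow_add ht,
      Real.rpow_one, Real.rpow_one]
    ring
  have h7 : |z.im| * ‖riemannZeta z‖ ≤ |z.im| * (5 * X * (5 : ℝ) ^ ε * |z.im| ^ ε) := by
    calc |z.im| * ‖riemannZeta z‖ ≤ ‖z - 1‖ * ‖riemannZeta z‖ := by gcongr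
      _ ≤ X * ‖z + 2‖ ^ (1 + ε) := h4
      _ ≤ X * (5 * (5 : ℝ) ^ ε * |z.im| ^ ε * |z.im|) := by
          rw [← h6]; gcongr
      _ = _ := by ring
  exact le_of_mul_le_mul_left h7 ht

/-- zeta is small to the right of the line `Re s = θ` -/
def Small (θ : ℝ) : Prop := ∀ σ : ℝ, θ < σ → ∀ ε : ℝ, 0 < ε → ∃ C : ℝ, ∀ t : ℝ, 1 ≤ |t| →
  ‖riemannZeta (σ + t * I)‖ ≤ C * |t| ^ ε

def Lindelof : Prop := ∀ ε : ℝ, 0 < ε → ∃ C : ℝ, ∀ t : ℝ,
  ‖riemannZeta (1 / 2 + t * I)‖ ≤ C * (1 + |t|) ^ ε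

theorem small_of_lindelof (h : Lindelof) : Small (1 / 2) := by
  intro σ hσ ε hε
  obtain ⟨C, hC⟩ := h ε hε
  have hC0 : 0 ≤ C := by
    have h1 := (norm_nonneg _).trans (hC 0)
    have h2 : (0 : ℝ) < (1 + |(0 : ℝ)|) ^ ε := by positivity
    nlinarith
  obtain ⟨C', hC', h1⟩ := strip (σ := 1 / 2) (ε := ε) (C := C * (2 : ℝ) ^ ε) (by norm_num)
    (by norm_num) hε.le (fun t ht => by
      have h2 := hC t
      have h3 : (1 + |t|) ^ ε ≤ (2 : ℝ) ^ ε * |t| ^ ε := by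
        rw [← Real.mul_rpow (by norm_num) (abs_nonneg _)]
        exact Real.rpow_le_rpow (by positivity) (by linarith) hε.le
      calc ‖riemannZeta (((1 / 2 : ℝ) : ℂ) + t * I)‖ = ‖riemannZeta (1 / 2 + t * I)‖ := by
            congr 3; push_cast; ring
        _ ≤ C * (1 + |t|) ^ ε := h2
        _ ≤ C * ((2 : ℝ) ^ ε * |t| ^ ε) := by gcongr
        _ = _ := by ring)
  obtain ⟨B, hB1, hB⟩ := zeta_two_bd
  rcases le_or_gt σ 2 with h2 | h2
  · refine ⟨C', fun t ht => ?_⟩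
    have := h1 (σ + t * I) (by simp; linarith) (by simpa using h2) (by simpa using ht)
    simpa using this
  · refine ⟨B, fun t ht => ?_⟩
    have h3 := hB (σ + t * I) (by simp; linarith)
    have h5 : 1 ≤ |t| ^ ε := Real.one_le_rpow ht hε.le
    nlinarith

theorem lindelof_of_small (h : Small (1 / 2)) : Lindelof := by
  intro ε hε
  obtain ⟨C, hC⟩ := H388LH.to_critical (β := ε / 2) (by positivity) (fun δ hδ hδ1 => by
    obtain ⟨C, hC⟩ := h (1 / 2 + δ) (by linarith) (ε / 2) (by positivity)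
    have hcomp : IsCompact (Icc (-1 : ℝ) 1) := isCompact_Icc
    obtain ⟨M, hM⟩ := hcomp.exists_bound_of_continuousOn
      (f := fun t : ℝ => riemannZeta (((1 / 2 + δ : ℝ) : ℂ) + t * I)) (fun t _ => by
        apply ContinuousAt.continuousWithinAt
        have hne : (((1 / 2 + δ : ℝ) : ℂ) + t * I) ≠ 1 := by
          intro h0
          have := congrArg Complex.re h0
          simp at this
          norm_num at this
          linarith
        have h1 := (differentiableAt_riemannZeta hne).continuousAt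
        exact ContinuousAt.comp (g := riemannZeta) (f := fun t : ℝ => ((1 / 2 + δ : ℝ) : ℂ) + t * I) h1
          (by fun_prop))
    refine ⟨max (max C M) 0, fun t => ?_⟩
    have h5 : 1 ≤ (1 + |t|) ^ (ε / 2) := Real.one_le_rpow (by linarith [abs_nonneg t]) (by positivity)
    rcases le_or_gt 1 |t| with ht | ht
    · have h6 := hC t ht
      have h7 : |t| ^ (ε / 2) ≤ (1 + |t|) ^ (ε / 2) :=
        Real.rpow_le_rpow (abs_nonneg _) (by linarith) (by positivity)
      calc ‖riemannZeta (((1 / 2 + δ : ℝ) : ℂ) + t * I)‖ ≤ C * |t| ^ (ε / 2) := h6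
        _ ≤ max (max C M) 0 * |t| ^ (ε / 2) := by
            gcongr
            exact (le_max_left _ _).trans (le_max_left _ _)
        _ ≤ _ := by gcongr
    · have h6 := hM t (abs_le.1 ht.le)
      calc ‖riemannZeta (((1 / 2 + δ : ℝ) : ℂ) + t * I)‖ ≤ M := h6
        _ ≤ max (max C M) 0 * 1 := by
            rw [mul_one]
            exact (le_max_right _ _).trans (le_max_left _ _)
        _ ≤ _ := by gcongr) (ε / 2) (by positivity)
  refine ⟨C, fun t => ?_⟩
  have := hC t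
  rwa [add_halves] at this

end Pool.Agent.Y853.PZ
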