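import Pool.Agent.Y853.PZ.Grow
import Pool.Agent.Y853.PZ.Strip

set_option autoImplicit false

/-! One-sided exponents in the divisor problem of Piltz. -/

namespace Pool.Agent.Y853.PZ

open Filter Topology Set Polynomial MeasureTheory
open Pool.Agent.W263.BSD

/-- the remainder -/
noncomputable def R (k : ℕ) (P : ℝ[X]) (x : ℝ) : ℝ := D k x - x * P.eval (Real.log x)

def Sup (k : ℕ) (P : ℝ[X]) (θ : ℝ) : Prop := ∀ ε : ℝ, 0 < ε → ∃ C : ℝ, ∀ x : ℝ, 1 ≤ x →
  |R k P x| ≤ C * x ^ (θ + ε)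

def Mean (k : ℕ) (P : ℝ[X]) (θ : ℝ) : Prop := ∀ ε : ℝ, 0 < ε → ∃ C : ℝ, ∀ X : ℝ, 1 ≤ X →
  ∫ x in X..(2 * X), |R k P x| ≤ C * X ^ (1 + θ + ε)

def Side (e : ℝ) (k : ℕ) (P : ℝ[X]) (θ : ℝ) : Prop := ∀ ε : ℝ, 0 < ε → ∃ C : ℝ, ∀ X : ℝ, 1 ≤ X →
  ∫ x in X..(2 * X), max (e * R k P x) 0 ≤ C * X ^ (1 + θ + ε)

theorem R_meas (k : ℕ) (P : ℝ[X]) : Measurable (R k P) := by
  unfold R
  exact (D_meas k).sub (by fun_prop)

theorem R_ii {k : ℕ} (hk : 1 ≤ k) {P : ℝ[X]} (hP : IsMain k P) {a b : ℝ} (ha : 1 ≤ a) (hab : a ≤ b) :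
    IntervalIntegrable (R k P) volume a b := by
  obtain ⟨C, δ, hC, hδ, hδ2, hb⟩ := main_bd hk hP
  have h1 : IntervalIntegrable (fun x : ℝ => C * x ^ (1 - δ)) volume a b := by
    refine ContinuousOn.intervalIntegrable ?_
    rw [uIcc_of_le hab]
    intro x hx
    exact (continuousAt_const.mul (Real.continuousAt_rpow_const x _ (Or.inl (by
      have := hx.1
      linarith)))).continuousWithinAt
  refine h1.mono_fun (R_meas k P).aestronglyMeasurable ?_
  rw [uIoc_of_le hab]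
  refine (ae_restrict_iff' measurableSet_Ioc).2 (Eventually.of_forall fun x hx => ?_)
  show ‖R k P x‖ ≤ ‖C * x ^ (1 - δ)‖
  rw [Real.norm_eq_abs, Real.norm_eq_abs]
  exact (hb x (ha.trans hx.1.le)).trans (le_abs_self _)

theorem dd_eq {k : ℕ} {P : ℝ[X]} {u : ℝ} (hu : 0 < u) : dd k P u = R k P (Real.exp u) := by
  unfold dd R
  rw [if_pos hu, Real.log_exp]

theorem log_two_mul' {X : ℝ} (hX : 1 ≤ X) : Real.log (2 * X) = Real.log X + Real.log 2 := by
  rw [Real.log_mul (by norm_num) (by linarith), add_comm]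

/-- from the variable `x` to the variable `u` -/
theorem side_lint {k : ℕ} (hk : 1 ≤ k) {P : ℝ[X]} (hP : IsMain k P) {θ e : ℝ} (hθ : 0 ≤ θ)
    (he : |e| ≤ 1) (h : Side e k P θ) : ∀ w > θ, LInt (fun u => max (e * dd k P u) 0) w := by
  intro w hw
  obtain ⟨C, hC⟩ := h ((w - θ) / 2) (by linarith)
  obtain ⟨C1, δ, hC1, hδ, hδ2, hb⟩ := main_bd hk hP
  have hm : Measurable (fun u => max (e * dd k P u) 0) :=
    ((dd_meas k P).const_mul e).max measurable_const
  have hbd : ∀ u, |max (e * dd k P u) 0| ≤ C1 * Real.exp ((1 - δ) * u) := by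
    intro u
    have h1 := dd_le (P := P) hC1 hb u
    rw [abs_of_nonneg (le_max_right _ _)]
    refine max_le ?_ (by positivity)
    calc e * dd k P u ≤ |e * dd k P u| := le_abs_self _
      _ = |e| * |dd k P u| := abs_mul _ _
      _ ≤ 1 * |dd k P u| := by gcongr
      _ ≤ _ := by rw [one_mul]; exact h1
  refine lint_of_dyadic hm (fun u => le_max_right _ _) hbd (L := Real.log 2)
    (C := C) (θ := θ + (w - θ) / 2) (Real.log_pos (by norm_num)) (by linarith) ?_ (by linarith)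
  intro v hv
  have hX : 1 ≤ Real.exp v := Real.one_le_exp hv
  have h1 := hC (Real.exp v) hX
  have hl2 : 0 < Real.log 2 := Real.log_pos (by norm_num)
  rw [cv (Real.exp_pos v) (by linarith), log_two_mul' hX, Real.log_exp] at h1
  have hii := ii_of hm hbd v (v + Real.log 2)
  have hii2 : IntervalIntegrable (fun u => Real.exp (u - v) * max (e * dd k P u) 0) volume v
      (v + Real.log 2) := hii.continuousOn_mul (by fun_prop)
  have h2 : ∫ u in v..(v + Real.log 2), max (e * dd k P u) 0 ≤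
      ∫ u in v..(v + Real.log 2), Real.exp (u - v) * max (e * dd k P u) 0 := by
    refine intervalIntegral.integral_mono_on (by linarith) hii hii2 fun u hu => ?_
    have h3 : 1 ≤ Real.exp (u - v) := Real.one_le_exp (by linarith [hu.1])
    have h4 : 0 ≤ max (e * dd k P u) 0 := le_max_right _ _
    nlinarith
  have h5 : ∫ u in v..(v + Real.log 2), Real.exp (u - v) * max (e * dd k P u) 0 =
      Real.exp (-v) * ∫ u in v..(v + Real.log 2), Real.exp u * max (e * R k P (Real.exp u)) 0 := by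
    rw [← intervalIntegral.integral_const_mul, intervalIntegral.integral_of_le (by linarith),
      intervalIntegral.integral_of_le (by linarith)]
    apply setIntegral_congr_fun measurableSet_Ioc
    intro u hu
    simp only []
    rw [dd_eq (lt_of_le_of_lt hv hu.1), sub_eq_neg_add, Real.exp_add]
    ring
  refine h2.trans ?_
  rw [h5]
  calc Real.exp (-v) * ∫ u in v..(v + Real.log 2), Real.exp u * max (e * R k P (Real.exp u)) 0
      ≤ Real.exp (-v) * (C * Real.exp v ^ (1 + θ + (w - θ) / 2)) := by gcongr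
    _ = C * Real.exp ((θ + (w - θ) / 2) * v) := by
        rw [← Real.exp_mul, mul_left_comm, ← Real.exp_add]
        ring_nf

theorem mean_of_lint {k : ℕ} (hk : 1 ≤ k) {P : ℝ[X]} (hP : IsMain k P) {θ : ℝ} (hθ : 0 ≤ θ)
    (h : ∀ w > θ, LInt (fun u => |dd k P u|) w) : Mean k P θ := by
  intro ε hε
  have hl2 : 0 < Real.log 2 := Real.log_pos (by norm_num)
  obtain ⟨C, hC, h1⟩ := dyadic_of_lint (f := fun u => |dd k P u|) (fun u => abs_nonneg _) (w := θ + ε)
    (by linarith) (h _ (by linarith)) hl2.le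
  refine ⟨2 * C, fun X hX => ?_⟩
  have hX0 : 0 < X := by linarith
  have hlX : 0 ≤ Real.log X := Real.log_nonneg hX
  rw [cv hX0 (by linarith), log_two_mul' hX]
  have h2 := h1 (Real.log X) hlX
  obtain ⟨C1, δ, hC1, hδ, hδ2, hb⟩ := main_bd hk hP
  have hii := ii_of (f := fun u => |dd k P u|) (dd_meas k P).norm (C := C1) (c := 1 - δ) (fun u => by
    rw [abs_abs]; exact dd_le hC1 hb u) (Real.log X) (Real.log X + Real.log 2)
  have h3 : ∫ u in (Real.log X)..(Real.log X + Real.log 2), Real.exp u * |R k P (Real.exp u)| ≤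
      ∫ u in (Real.log X)..(Real.log X + Real.log 2), (2 * X) * |dd k P u| := by
    rw [intervalIntegral.integral_of_le (by linarith), intervalIntegral.integral_of_le (by linarith)]
    have hi2 : IntegrableOn (fun u => (2 * X) * |dd k P u|) (Ioc (Real.log X)
        (Real.log X + Real.log 2)) := (hii.const_mul (2 * X)).1
    refine integral_mono_of_nonneg (Eventually.of_forall fun u => by positivity) hi2
      ((ae_restrict_iff' measurableSet_Ioc).2 (Eventually.of_forall fun u hu => ?_))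
    simp only []
    rw [dd_eq (lt_of_le_of_lt hlX hu.1)]
    have h4 : Real.exp u ≤ 2 * X := by
      have := Real.exp_le_exp.2 hu.2
      rw [Real.exp_add, Real.exp_log hX0, Real.exp_log (by norm_num)] at this
      linarith
    gcongr
  refine h3.trans ?_
  rw [intervalIntegral.integral_const_mul]
  have e1 : Real.exp ((θ + ε) * Real.log X) = X ^ (θ + ε) := by
    rw [Real.rpow_def_of_pos hX0, mul_comm]
  rw [e1] at h2
  calc 2 * X * ∫ u in (Real.log X)..(Real.log X + Real.log 2), |dd k P u|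
      ≤ 2 * X * (C * X ^ (θ + ε)) := by gcongr
    _ = 2 * C * (X ^ (1 : ℝ) * X ^ (θ + ε)) := by rw [Real.rpow_one]; ring
    _ = _ := by rw [← Real.rpow_add hX0]; ring_nf

theorem side_of_mean {k : ℕ} (hk : 1 ≤ k) {P : ℝ[X]} (hP : IsMain k P) {θ e : ℝ}
    (he : |e| ≤ 1) (h : Mean k P θ) : Side e k P θ := by
  intro ε hε
  obtain ⟨C, hC⟩ := h ε hε
  refine ⟨C, fun X hX => le_trans ?_ (hC X hX)⟩
  have hii := R_ii hk hP hX (show X ≤ 2 * X by linarith)
  have hle : ∀ x : ℝ, max (e * R k P x) 0 ≤ |R k P x| := by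
    intro x
    refine max_le ?_ (abs_nonneg _)
    calc e * R k P x ≤ |e * R k P x| := le_abs_self _
      _ = |e| * |R k P x| := abs_mul _ _
      _ ≤ 1 * |R k P x| := by gcongr
      _ = _ := one_mul _
  rw [intervalIntegral.integral_of_le (by linarith), intervalIntegral.integral_of_le (by linarith)]
  exact integral_mono_of_nonneg (Eventually.of_forall fun x => le_max_right _ _) hii.abs.1
    (Eventually.of_forall hle)

theorem abs_lint {k : ℕ} (hk : 1 ≤ k) {P : ℝ[X]} (hP : IsMain k P) {θ e : ℝ} (hθ : 0 ≤ θ)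
    (he : |e| = 1) (h : Side e k P θ) : ∀ w > θ, LInt (fun u => |dd k P u|) w := by
  have h1 := side_lint hk hP hθ he.le h
  have h2 := other_side hk hP hθ h1
  intro w hw
  have h3 := lint_abs (f := fun u => e * dd k P u) (h1 w hw) (h2 w hw)
  have e1 : (fun u => |e * dd k P u|) = fun u => |dd k P u| := by
    funext u
    rw [abs_mul, he, one_mul]
  rwa [e1] at h3

theorem side_iff {k : ℕ} (hk : 1 ≤ k) {P : ℝ[X]} (hP : IsMain k P) {θ e : ℝ} (hθ : 0 ≤ θ)
    (he : |e| = 1) : Side e k P θ ↔ Mean k P θ :=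
  ⟨fun h => mean_of_lint hk hP hθ (abs_lint hk hP hθ he h), fun h => side_of_mean hk hP he.le h⟩

theorem mean_lint {k : ℕ} (hk : 1 ≤ k) {P : ℝ[X]} (hP : IsMain k P) {θ : ℝ} (hθ : 0 ≤ θ)
    (h : Mean k P θ) : ∀ w > θ, LInt (fun u => |dd k P u|) w :=
  abs_lint hk hP hθ (e := 1) abs_one (side_of_mean hk hP (by rw [abs_one]) h)

/-- every exponent of one divisor function bounds the exponents of all others -/
theorem cross {k K : ℕ} (hk : 1 ≤ k) (hK : 1 ≤ K) {P Q : ℝ[X]} (hP : IsMain k P) (hQ : IsMain K Q)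
    {θ : ℝ} (hθ : 0 ≤ θ) (hθ1 : θ < 1) (h : Mean K Q θ) : Sup k P ((K * θ + k) / (K + k)) := by
  intro ε hε
  have hK0 : (0 : ℝ) < K := by exact_mod_cast hK
  have hk0 : (0 : ℝ) < k := by exact_mod_cast hk
  obtain ⟨s, hs, hs1, hs2⟩ : ∃ s : ℝ, 0 < s ∧ 3 * s ≤ ε ∧ s ≤ 1 - θ :=
    ⟨min (ε / 3) (1 - θ), lt_min (by linarith) (by linarith), by
      have := min_le_left (ε / 3) (1 - θ); linarith, min_le_right _ _⟩
  obtain ⟨C, hC, hg⟩ := grow hK Q hθ (mean_lint hK hQ hθ h) (σ := θ + s) (by linarith)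
  obtain ⟨η, hη⟩ : ∃ η : ℝ, η = k / K := ⟨_, rfl⟩
  have hη0 : 0 < η := by rw [hη]; positivity
  have hgrow : ∀ z : ℂ, θ + s ≤ z.re → z.re ≤ 2 → 1 ≤ |z.im| →
      ‖riemannZeta z‖ ^ k ≤ C ^ η * |z.im| ^ η := by
    intro z h1 h2 h3
    have h4 := hg z h1 h2 h3
    have h5 : ‖riemannZeta z‖ ^ k = (‖riemannZeta z‖ ^ K) ^ η := by
      rw [← Real.rpow_natCast, ← Real.rpow_natCast, ← Real.rpow_mul (norm_nonneg _)]
      congr 1
      rw [hη]
      field_simp
    rw [h5, ← Real.mul_rpow hC (abs_nonneg _)]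
    exact Real.rpow_le_rpow (by positivity) h4 hη0.le
  obtain ⟨B, hB⟩ := point hk hP (σ := θ + s) (η := η) (κ := η + s) (C := C ^ η) (by linarith)
    (by linarith) hη0.le (by linarith) (by positivity) hgrow hs
  have hB0 : 0 ≤ B := by
    have := (abs_nonneg _).trans (hB 1 le_rfl)
    rwa [Real.one_rpow, mul_one] at this
  refine ⟨B, fun x hx => (hB x hx).trans ?_⟩
  refine mul_le_mul_of_nonneg_left (Real.rpow_le_rpow_of_exponent_le hx ?_) hB0
  have e1 : (K * θ + k) / (K + k) = (θ + η) / (1 + η) := by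
    rw [hη]
    field_simp
  have e2 : (θ + s + (η + s)) / (1 + (η + s)) ≤ (θ + η) / (1 + η) + 2 * s := by
    calc (θ + s + (η + s)) / (1 + (η + s)) ≤ (θ + s + (η + s)) / (1 + η) := by
          apply div_le_div_of_nonneg_left (by linarith) (by linarith) (by linarith)
      _ = (θ + η) / (1 + η) + 2 * s / (1 + η) := by rw [← add_div]; ring_nf
      _ ≤ (θ + η) / (1 + η) + 2 * s := by
          gcongr
          exact div_le_self (by linarith) (by linarith)
  rw [e1]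
  linarith

theorem sup_of_small {k : ℕ} (hk : 1 ≤ k) {P : ℝ[X]} (hP : IsMain k P) {θ : ℝ} (hθ : 0 ≤ θ)
    (hθ1 : θ < 1) (h : Small θ) : Sup k P θ := by
  intro ε hε
  have hk0 : (0 : ℝ) < k := by exact_mod_cast hk
  obtain ⟨s, hs, hs1, hs2⟩ : ∃ s : ℝ, 0 < s ∧ 4 * s ≤ ε ∧ s ≤ 1 - θ :=
    ⟨min (ε / 4) (1 - θ), lt_min (by linarith) (by linarith), by
      have := min_le_left (ε / 4) (1 - θ); linarith, min_le_right _ _⟩
  obtain ⟨C0, hC0⟩ := h (θ + s) (by linarith) (s / k) (by positivity)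
  obtain ⟨C, hC, hst⟩ := strip (σ := θ + s) (by linarith) (by linarith) (by positivity) hC0
  have hgrow : ∀ z : ℂ, θ + s ≤ z.re → z.re ≤ 2 → 1 ≤ |z.im| →
      ‖riemannZeta z‖ ^ k ≤ C ^ k * |z.im| ^ s := by
    intro z h1 h2 h3
    calc ‖riemannZeta z‖ ^ k ≤ (C * |z.im| ^ (s / k)) ^ k := by
          gcongr
          exact hst z h1 h2 h3
      _ = C ^ k * |z.im| ^ s := by
          rw [mul_pow, ← Real.rpow_natCast (|z.im| ^ (s / k)), ← Real.rpow_mul (abs_nonneg _)]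
          congr 2
          field_simp
  obtain ⟨B, hB⟩ := point hk hP (σ := θ + s) (η := s) (κ := 2 * s) (C := C ^ k) (by linarith)
    (by linarith) hs.le (by linarith) (by positivity) hgrow hs
  have hB0 : 0 ≤ B := by
    have := (abs_nonneg _).trans (hB 1 le_rfl)
    rwa [Real.one_rpow, mul_one] at this
  refine ⟨B, fun x hx => (hB x hx).trans ?_⟩
  refine mul_le_mul_of_nonneg_left (Real.rpow_le_rpow_of_exponent_le hx ?_) hB0
  have e1 : (θ + s + 2 * s) / (1 + 2 * s) ≤ θ + s + 2 * s :=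
    div_le_self (by linarith) (by linarith)
  linarith

theorem small_of_inf {P : ℕ → ℝ[X]} (hP : ∀ k : ℕ, 1 ≤ k → IsMain k (P k)) {θ : ℝ} (hθ : 0 ≤ θ)
    (h : {K : ℕ | 1 ≤ K ∧ ∃ e : ℝ, |e| = 1 ∧ Side e K (P K) θ}.Infinite) : Small θ := by
  intro σ hσ ε hε
  obtain ⟨B, hB1, hB⟩ := zeta_two_bd
  rcases le_or_gt σ 2 with h2 | h2
  · obtain ⟨n, hn⟩ := exists_nat_ge (1 / ε)
    obtain ⟨K, ⟨hK1, e, he, hS⟩, hnK⟩ := h.exists_gt n
    have hK0 : (0 : ℝ) < K := by exact_mod_cast hK1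
    obtain ⟨C, hC, hg⟩ := grow hK1 (P K) hθ (abs_lint hK1 (hP K hK1) hθ he hS) hσ
    refine ⟨C ^ (1 / K : ℝ), fun t ht => ?_⟩
    have h3 := hg (σ + t * Complex.I) (by simp) (by simpa using h2) (by simpa using ht)
    have h4 : |(σ + t * Complex.I : ℂ).im| = |t| := by simp
    rw [h4] at h3
    have h5 : ‖riemannZeta (σ + t * Complex.I)‖ = (‖riemannZeta (σ + t * Complex.I)‖ ^ K) ^ (1 / K : ℝ) := by
      rw [← Real.rpow_natCast, ← Real.rpow_mul (norm_nonneg _), mul_one_div_cancel hK0.ne',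
        Real.rpow_one]
    rw [h5]
    calc (‖riemannZeta (σ + t * Complex.I)‖ ^ K) ^ (1 / K : ℝ) ≤ (C * |t|) ^ (1 / K : ℝ) :=
          Real.rpow_le_rpow (by positivity) h3 (by positivity)
      _ = C ^ (1 / K : ℝ) * |t| ^ (1 / K : ℝ) := Real.mul_rpow hC (abs_nonneg _)
      _ ≤ C ^ (1 / K : ℝ) * |t| ^ ε := by
          refine mul_le_mul_of_nonneg_left (Real.rpow_le_rpow_of_exponent_le ht ?_) (by positivity)
          have h6 : (1 : ℝ) / ε ≤ K := hn.trans (by exact_mod_cast hnK.le)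
          rw [div_le_iff₀ hK0]
          rw [div_le_iff₀ hε] at h6
          linarith
  · refine ⟨B, fun t ht => ?_⟩
    have h3 := hB (σ + t * Complex.I) (by simp; linarith)
    have h5 : 1 ≤ |t| ^ ε := Real.one_le_rpow ht hε.le
    nlinarith

theorem mean_of_sup {k : ℕ} (hk : 1 ≤ k) {P : ℝ[X]} (hP : IsMain k P) {θ : ℝ} (hθ : 0 ≤ θ)
    (h : Sup k P θ) : Mean k P θ := by
  intro ε hε
  obtain ⟨C, hC⟩ := h ε hε
  have hC0 : 0 ≤ C := by
    have := (abs_nonneg _).trans (hC 1 le_rfl)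
    rwa [Real.one_rpow, mul_one] at this
  refine ⟨C * (2 : ℝ) ^ (θ + ε), fun X hX => ?_⟩
  have hX0 : 0 < X := by linarith
  have h1 : ∫ x in X..(2 * X), |R k P x| ≤ ∫ x in X..(2 * X), C * (2 * X) ^ (θ + ε) := by
    refine intervalIntegral.integral_mono_on (by linarith) (R_ii hk hP hX (by linarith)).abs
      intervalIntegrable_const fun x hx => ?_
    refine (hC x (hX.trans hx.1)).trans ?_
    gcongr
    · linarith [hx.1]
    · exact hx.2
  refine h1.trans (le_of_eq ?_)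
  rw [intervalIntegral.integral_const, smul_eq_mul, Real.mul_rpow (by norm_num) hX0.le]
  have e1 : X ^ (1 + θ + ε) = X * X ^ (θ + ε) := by
    rw [show 1 + θ + ε = 1 + (θ + ε) by ring, Real.rpow_add hX0, Real.rpow_one]
  rw [e1]
  ring

theorem tfae {P : ℕ → ℝ[X]} (hP : ∀ k : ℕ, 1 ≤ k → IsMain k (P k)) {θ : ℝ} (hθ : 0 ≤ θ)
    (hθ1 : θ < 1) :
    List.TFAE [∀ k : ℕ, 1 ≤ k → Sup k (P k) θ,
      {K : ℕ | 1 ≤ K ∧ ∃ e : ℝ, |e| = 1 ∧ Side e K (P K) θ}.Infinite, Small θ] := by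
  tfae_have 1 → 2 := by
    intro h
    refine (Set.Ici_infinite (1 : ℕ)).mono fun K hK => ⟨hK, 1, abs_one, ?_⟩
    exact side_of_mean hK (hP K hK) (by rw [abs_one]) (mean_of_sup hK (hP K hK) hθ (h K hK))
  tfae_have 2 → 3 := small_of_inf hP hθ
  tfae_have 3 → 1 := fun h k hk => sup_of_small hk (hP k hk) hθ hθ1 h
  tfae_finish

end Pool.Agent.Y853.PZ
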