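import Pool.Agent.Y853.PZ.Inv

set_option autoImplicit false

/-! From iterated means over short intervals to pointwise bounds, by monotonicity. -/

namespace Pool.Agent.Y853.PZ

open MeasureTheory Filter Topology Set

theorem av_continuous {d : ℝ → ℝ} (hloc : LocallyIntegrable d) (δ : ℝ) : Continuous (av d δ) := by
  have hi : ∀ a b : ℝ, IntervalIntegrable d volume a b := fun a b =>
    (hloc.integrableOn_isCompact isCompact_uIcc).intervalIntegrable
  have h1 : ∀ u, av d δ u = δ⁻¹ * ((∫ v in (0 : ℝ)..u, d v) - ∫ v in (0 : ℝ)..(u - δ), d v) := by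
    intro u
    unfold av
    congr 1
    rw [eq_sub_iff_add_eq, add_comm, intervalIntegral.integral_add_adjacent_intervals (hi _ _) (hi _ _)]
  have h2 := intervalIntegral.continuous_primitive hi 0
  rw [show av d δ = fun u => δ⁻¹ * ((∫ v in (0 : ℝ)..u, d v) - ∫ v in (0 : ℝ)..(u - δ), d v) from
    funext h1]
  exact continuous_const.mul (h2.sub (h2.comp (by fun_prop)))

theorem avr_loc {d : ℝ → ℝ} (hloc : LocallyIntegrable d) (δ : ℝ) (n : ℕ) :
    LocallyIntegrable (avr d δ n) := by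
  induction n with
  | zero => exact hloc
  | succ n ih => exact (av_continuous ih δ).locallyIntegrable

theorem avr_le {d : ℝ → ℝ} (hloc : LocallyIntegrable d) {δ : ℝ} (hδ : 0 < δ) {A : ℝ} (n : ℕ) :
    ∀ u : ℝ, (∀ v : ℝ, u - n * δ ≤ v → v ≤ u → d v ≤ A) → avr d δ n u ≤ A := by
  induction n with
  | zero =>
    intro u h
    exact h u (by simp) le_rfl
  | succ n ih =>
    intro u h
    have hi : IntervalIntegrable (avr d δ n) volume (u - δ) u :=
      ((avr_loc hloc δ n).integrableOn_isCompact isCompact_uIcc).intervalIntegrable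
    show av (avr d δ n) δ u ≤ A
    unfold av
    have h1 : ∫ v in (u - δ)..u, avr d δ n v ≤ ∫ v in (u - δ)..u, A := by
      refine intervalIntegral.integral_mono_on (by linarith) hi intervalIntegrable_const ?_
      intro v hv
      refine ih v fun x hx1 hx2 => h x ?_ (hx2.trans hv.2)
      have := hv.1
      push_cast
      linarith
    rw [intervalIntegral.integral_const, smul_eq_mul] at h1
    rw [inv_mul_le_iff₀ hδ]
    linarith

theorem le_avr {d : ℝ → ℝ} (hloc : LocallyIntegrable d) {δ : ℝ} (hδ : 0 < δ) {A : ℝ} (n : ℕ) :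
    ∀ u : ℝ, (∀ v : ℝ, u - n * δ ≤ v → v ≤ u → A ≤ d v) → A ≤ avr d δ n u := by
  induction n with
  | zero =>
    intro u h
    exact h u (by simp) le_rfl
  | succ n ih =>
    intro u h
    have hi : IntervalIntegrable (avr d δ n) volume (u - δ) u :=
      ((avr_loc hloc δ n).integrableOn_isCompact isCompact_uIcc).intervalIntegrable
    show A ≤ av (avr d δ n) δ u
    unfold av
    have h1 : ∫ v in (u - δ)..u, A ≤ ∫ v in (u - δ)..u, avr d δ n v := by
      refine intervalIntegral.integral_mono_on (by linarith) intervalIntegrable_const hi ?_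
      intro v hv
      refine ih v fun x hx1 hx2 => h x ?_ (hx2.trans hv.2)
      have := hv.1
      push_cast
      linarith
    rw [intervalIntegral.integral_const, smul_eq_mul] at h1
    rw [le_inv_mul_iff₀ hδ]
    linarith

theorem mono_bound {d D m m' : ℝ → ℝ} {C1 ρ1 C σ κ : ℝ} {n : ℕ} (hC1 : 0 ≤ C1) (hρ1 : 0 ≤ ρ1)
    (hC : 0 ≤ C)
    (hσ : 0 ≤ σ) (hD : ∀ u v : ℝ, 0 < u → u ≤ v → D u ≤ D v)
    (hm : ∀ u, HasDerivAt m (m' u) u) (hm' : ∀ u : ℝ, 0 ≤ u → |m' u| ≤ C1 * Real.exp (ρ1 * u))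
    (hd : ∀ u : ℝ, 0 < u → d u = D u - m u) (hloc : LocallyIntegrable d)
    (hav : ∀ δ u : ℝ, 0 < δ → |avr d δ n u| ≤ C * Real.exp (σ * u) * δ ^ (-κ)) :
    ∃ B : ℝ, 0 ≤ B ∧ ∀ u : ℝ, 1 ≤ u → ∀ δ : ℝ, 0 < δ → n * δ ≤ 1 / 2 →
      |d u| ≤ B * (Real.exp (σ * u) * δ ^ (-κ) + δ * Real.exp (ρ1 * u)) := by
  refine ⟨C * Real.exp σ + n * (C1 * Real.exp ρ1), by positivity, fun u hu δ hδ hδ2 => ?_⟩
  obtain ⟨K, hK⟩ : ∃ K : ℝ, K = C1 * Real.exp (ρ1 * (u + 1)) := ⟨_, rfl⟩
  have hK0 : 0 ≤ K := by rw [hK]; positivity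
  have hnδ : (0 : ℝ) ≤ n * δ := by positivity
  have hdiff : ∀ v : ℝ, |v - u| ≤ n * δ → |m v - m u| ≤ n * δ * K := by
    intro v hv
    have hv' := abs_le.1 hv
    have h1 := Convex.norm_image_sub_le_of_norm_hasDerivWithin_le (f := m) (f' := m')
      (s := Icc (u - n * δ) (u + n * δ)) (C := K) (x := u) (y := v)
      (fun x _ => (hm x).hasDerivWithinAt) (fun x hx => by
        rw [Real.norm_eq_abs]
        refine (hm' x (by linarith [hx.1])).trans ?_
        rw [hK]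
        gcongr
        linarith [hx.2]) (convex_Icc _ _) ⟨by linarith, by linarith⟩ ⟨by linarith, by linarith⟩
    rw [Real.norm_eq_abs, Real.norm_eq_abs] at h1
    calc |m v - m u| ≤ K * |v - u| := h1
      _ ≤ K * (n * δ) := by gcongr
      _ = n * δ * K := mul_comm _ _
  have hlow : avr d δ n u - n * δ * K ≤ d u := by
    have h4 : avr d δ n u ≤ d u + n * δ * K := by
      refine avr_le hloc hδ n u fun v hv1 hv2 => ?_
      have hv0 : 0 < v := by linarith
      have h2 := (abs_le.1 (hdiff v (abs_le.2 ⟨by linarith, by linarith⟩))).1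
      rw [hd v hv0, hd u (by linarith)]
      have h3 := hD v u hv0 hv2
      linarith
    linarith
  have hupp : d u ≤ avr d δ n (u + n * δ) + n * δ * K := by
    have h4 : d u - n * δ * K ≤ avr d δ n (u + n * δ) := by
      refine le_avr hloc hδ n _ fun v hv1 hv2 => ?_
      have hv0 : 0 < v := by linarith
      have h2 := (abs_le.1 (hdiff v (abs_le.2 ⟨by linarith, by linarith⟩))).2
      rw [hd v hv0, hd u (by linarith)]
      have h3 := hD u v (by linarith) (by linarith)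
      linarith
    linarith
  have ha1 := abs_le.1 (hav δ u hδ)
  have ha2 := abs_le.1 (hav δ (u + n * δ) hδ)
  have he : Real.exp (σ * (u + n * δ)) ≤ Real.exp σ * Real.exp (σ * u) := by
    rw [← Real.exp_add]
    apply Real.exp_le_exp.2
    nlinarith
  have he1 : Real.exp (σ * u) ≤ Real.exp σ * Real.exp (σ * u) := by
    have : 1 ≤ Real.exp σ := Real.one_le_exp hσ
    nlinarith [Real.exp_pos (σ * u)]
  have hKe : K = C1 * Real.exp ρ1 * Real.exp (ρ1 * u) := by
    rw [hK, mul_assoc, ← Real.exp_add]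
    ring_nf
  have hδκ : 0 ≤ δ ^ (-κ) := by positivity
  have h5 : C * Real.exp (σ * (u + n * δ)) * δ ^ (-κ) ≤
      C * (Real.exp σ * Real.exp (σ * u)) * δ ^ (-κ) := by
    gcongr
  have h6 : C * Real.exp (σ * u) * δ ^ (-κ) ≤ C * (Real.exp σ * Real.exp (σ * u)) * δ ^ (-κ) := by
    gcongr
  have h7 : |d u| ≤ C * (Real.exp σ * Real.exp (σ * u)) * δ ^ (-κ) + n * δ * K := by
    rw [abs_le]
    constructor <;> linarith
  refine h7.trans ?_
  rw [hKe]
  have h8 : 0 ≤ n * (C1 * Real.exp ρ1) * (Real.exp (σ * u) * δ ^ (-κ)) := by positivity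
  have h9 : 0 ≤ C * Real.exp σ * (δ * Real.exp (ρ1 * u)) := by positivity
  nlinarith

/-- choice of the length -/
theorem opt_bound {d : ℝ → ℝ} {B σ κ ε : ℝ} {n : ℕ} (hB : 0 ≤ B) (hκ : 0 ≤ κ) (hσ1 : σ ≤ 1)
    (hε : 0 ≤ ε)
    (h : ∀ u : ℝ, 1 ≤ u → ∀ δ : ℝ, 0 < δ → n * δ ≤ 1 / 2 →
      |d u| ≤ B * (Real.exp (σ * u) * δ ^ (-κ) + δ * Real.exp ((1 + ε) * u))) :
    ∃ B' : ℝ, 0 ≤ B' ∧ ∀ u : ℝ, 1 ≤ u → |d u| ≤ B' * Real.exp (((σ + κ) / (1 + κ) + ε) * u) := by
  obtain ⟨q, hq⟩ : ∃ q : ℝ, q = 2 * (n + 1) := ⟨_, rfl⟩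
  have hn0 : (0 : ℝ) ≤ n := Nat.cast_nonneg n
  have hq1 : 2 ≤ q := by rw [hq]; linarith
  have hq0 : 0 < q := by linarith
  refine ⟨B * (q ^ κ + 1), by positivity, fun u hu => ?_⟩
  have hk1 : 0 < 1 + κ := by linarith
  obtain ⟨l, hl⟩ : ∃ l : ℝ, l = (1 - σ) / (1 + κ) := ⟨_, rfl⟩
  have hl0 : 0 ≤ l := by rw [hl]; exact div_nonneg (by linarith) hk1.le
  have e1 : σ + κ * l = (σ + κ) / (1 + κ) := by
    rw [hl]; field_simp; ring
  have e2 : 1 - l = (σ + κ) / (1 + κ) := by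
    rw [hl]; field_simp; ring
  have hδ0 : 0 < Real.exp (-(l * u)) / q := by positivity
  have hexp1 : Real.exp (-(l * u)) ≤ 1 := Real.exp_le_one_iff.2 (by
      have := mul_nonneg hl0 (by linarith : (0 : ℝ) ≤ u); linarith)
  have hδ2 : n * (Real.exp (-(l * u)) / q) ≤ 1 / 2 := by
    rw [← mul_div_assoc, div_le_div_iff₀ hq0 (by norm_num), hq]
    nlinarith
  refine (h u hu _ hδ0 hδ2).trans ?_
  have h1 : (Real.exp (-(l * u)) / q) ^ (-κ) = q ^ κ * Real.exp (κ * l * u) := by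
    rw [Real.div_rpow (Real.exp_pos _).le hq0.le, Real.rpow_neg hq0.le,
      div_inv_eq_mul, mul_comm, ← Real.exp_mul]
    ring_nf
  rw [h1]
  have h2 : Real.exp (σ * u) * (q ^ κ * Real.exp (κ * l * u)) =
      q ^ κ * Real.exp ((σ + κ) / (1 + κ) * u) := by
    rw [← e1, show (σ + κ * l) * u = σ * u + κ * l * u by ring, Real.exp_add]
    ring
  have h3 : Real.exp (-(l * u)) / q * Real.exp ((1 + ε) * u) =
      Real.exp (((σ + κ) / (1 + κ) + ε) * u) / q := by
    rw [← e2, show (1 - l + ε) * u = -(l * u) + (1 + ε) * u by ring, Real.exp_add]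
    ring
  rw [h2, h3]
  have h4 : Real.exp ((σ + κ) / (1 + κ) * u) ≤ Real.exp (((σ + κ) / (1 + κ) + ε) * u) := by
    apply Real.exp_le_exp.2
    nlinarith
  have h5 : (0 : ℝ) < q ^ κ := by positivity
  have h6 := Real.exp_pos (((σ + κ) / (1 + κ) + ε) * u)
  have h7 : Real.exp (((σ + κ) / (1 + κ) + ε) * u) / q ≤ Real.exp (((σ + κ) / (1 + κ) + ε) * u) :=
    div_le_self h6.le (by linarith)
  calc B * (q ^ κ * Real.exp ((σ + κ) / (1 + κ) * u) +
        Real.exp (((σ + κ) / (1 + κ) + ε) * u) / q)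
      ≤ B * (q ^ κ * Real.exp (((σ + κ) / (1 + κ) + ε) * u) +
        Real.exp (((σ + κ) / (1 + κ) + ε) * u)) := by
        gcongr
    _ = _ := by ring

end Pool.Agent.Y853.PZ
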