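import Pool.Agent.Y853.PZ.Side
import Pool.Agent.Y853.PZ.Mono

set_option autoImplicit false

/-! Growth of zeta from mean bounds, and pointwise bounds from the growth of zeta. -/

namespace Pool.Agent.Y853.PZ

open Filter Topology Set Polynomial MeasureTheory
open Pool.Agent.W263.BSD

theorem lapC_norm_le {f : ℝ → ℝ} {σ : ℝ} (h : LInt (fun u => |f u|) σ) {z : ℂ} (hz : σ ≤ z.re) :
    ‖lapC f z‖ ≤ lap (fun u => |f u|) σ := by
  unfold lapC lap
  refine norm_integral_le_of_norm_le h ?_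
  refine (ae_restrict_iff' measurableSet_Ioi).2 (Eventually.of_forall fun u hu => ?_)
  have hu0 : 0 < u := hu
  rw [norm_mul, Complex.norm_real, Real.norm_eq_abs, Complex.norm_exp]
  have h1 : (-(z * (u : ℂ))).re = -(z.re * u) := by simp
  rw [h1]
  gcongr

theorem grow {k : ℕ} (hk : 1 ≤ k) (P : ℝ[X]) {θ : ℝ} (hθ : 0 ≤ θ)
    (h : ∀ w > θ, LInt (fun u => |dd k P u|) w) {σ : ℝ} (hσ : θ < σ) :
    ∃ C : ℝ, 0 ≤ C ∧ ∀ z : ℂ, σ ≤ z.re → z.re ≤ 2 → 1 ≤ |z.im| → ‖riemannZeta z‖ ^ k ≤ C * |z.im| := by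
  have hL : ∀ w > θ, LInt (dd k P) w := fun w hw =>
    LInt.of_bound (dd_meas k P) (h w hw) fun u _ => le_rfl
  obtain ⟨C, hC, hH⟩ := Hp_le P
  obtain ⟨B, hB⟩ : ∃ B : ℝ, B = lap (fun u => |dd k P u|) σ := ⟨_, rfl⟩
  have hB0 : 0 ≤ B := by rw [hB]; exact lap_nonneg (fun u _ => abs_nonneg _) σ
  refine ⟨3 * (B + C), by positivity, fun z h1 h2 h3 => ?_⟩
  have him : z.im ≠ 0 := by
    intro h0
    rw [h0, abs_zero] at h3
    linarith
  have hz1 : z ≠ 1 := by rintro rfl; simp at him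
  have hz0 : z ≠ 0 := by rintro rfl; simp at him
  have e1 := Gx_eq hk P hθ hL z (by linarith)
  rw [Gx_ne hz1] at e1
  have e2 : riemannZeta z ^ k = z * (lapC (dd k P) z + Hp P z) := by
    rw [e1]
    unfold G0
    field_simp
    ring
  have n1 : 1 ≤ ‖z - 1‖ := by
    refine h3.trans ?_
    have := Complex.abs_im_le_norm (z - 1)
    simpa using this
  have n2 : ‖Hp P z‖ ≤ C := (hH z n1).trans (div_le_self hC n1)
  have n3 : ‖lapC (dd k P) z‖ ≤ B := by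
    rw [hB]
    exact lapC_norm_le (h σ hσ) h1
  have n4 : ‖z‖ ≤ 3 * |z.im| := by
    have h4 := Complex.norm_le_abs_re_add_abs_im z
    have h5 : |z.re| ≤ 2 := abs_le.2 ⟨by linarith, h2⟩
    linarith
  rw [← norm_pow, e2, norm_mul]
  calc ‖z‖ * ‖lapC (dd k P) z + Hp P z‖ ≤ (3 * |z.im|) * (B + C) := by
        gcongr
        exact (norm_add_le _ _).trans (by linarith)
    _ = _ := by ring

theorem pw_small {t p : ℝ} (ht : 0 ≤ t) (ht1 : t ≤ 1) : 1 ≤ (2 : ℝ) ^ |p| * (1 + t) ^ p := by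
  have h2 : (0 : ℝ) < (2 : ℝ) ^ |p| := by positivity
  rcases le_total 0 p with hp | hp
  · have h3 : 1 ≤ (2 : ℝ) ^ |p| := Real.one_le_rpow (by norm_num) (abs_nonneg p)
    have h4 : 1 ≤ (1 + t) ^ p := Real.one_le_rpow (by linarith) hp
    nlinarith
  · have h4 : (2 : ℝ) ^ p ≤ (1 + t) ^ p :=
      Real.rpow_le_rpow_of_nonpos (by linarith) (by linarith) hp
    calc (1 : ℝ) = (2 : ℝ) ^ |p| * (2 : ℝ) ^ p := by
          rw [← Real.rpow_add (by norm_num), abs_of_nonpos hp]; simp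
      _ ≤ _ := by gcongr

theorem pw_large {t p : ℝ} (ht : 1 ≤ t) : t ^ p ≤ (2 : ℝ) ^ |p| * (1 + t) ^ p := by
  have h2 : (0 : ℝ) < (2 : ℝ) ^ |p| := by positivity
  rcases le_total 0 p with hp | hp
  · have h3 : 1 ≤ (2 : ℝ) ^ |p| := Real.one_le_rpow (by norm_num) (abs_nonneg p)
    have h4 : t ^ p ≤ (1 + t) ^ p := Real.rpow_le_rpow (by linarith) (by linarith) hp
    have h5 : 0 ≤ (1 + t) ^ p := by positivity
    nlinarith
  · calc t ^ p ≤ ((1 + t) / 2) ^ p :=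
          Real.rpow_le_rpow_of_nonpos (by positivity) (by linarith) hp
      _ = _ := by
          rw [Real.div_rpow (by linarith) (by norm_num), div_eq_mul_inv,
            ← Real.rpow_neg (by norm_num : (0 : ℝ) ≤ 2), abs_of_nonpos hp, mul_comm]

theorem G_bd {k : ℕ} (hk : 1 ≤ k) {P : ℝ[X]} (hP : IsMain k P) {σ η C : ℝ} (hσ : 0 < σ)
    (hC : 0 ≤ C)
    (h : ∀ z : ℂ, σ ≤ z.re → z.re ≤ 2 → 1 ≤ |z.im| → ‖riemannZeta z‖ ^ k ≤ C * |z.im| ^ η)
    (hη0 : 0 ≤ η) :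
    ∃ M : ℝ, 0 ≤ M ∧ ∀ z : ℂ, σ ≤ z.re → z.re ≤ 2 → ‖Gx k P z‖ ≤ M * (1 + |z.im|) ^ (η - 1) := by
  have hcomp : IsCompact (Icc σ 2 ×ℂ Icc (-1) 1) := isCompact_Icc.reProdIm isCompact_Icc
  have hcont : ContinuousOn (Gx k P) (Icc σ 2 ×ℂ Icc (-1) 1) := by
    intro z hz
    rw [Complex.mem_reProdIm] at hz
    exact (Gx_diff hk hP (by linarith [hz.1.1])).continuousAt.continuousWithinAt
  obtain ⟨M0, hM0⟩ := hcomp.exists_bound_of_continuousOn hcont
  obtain ⟨C2, hC2, hH⟩ := Hp_le P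
  obtain ⟨M1, hM1a, hM1b⟩ : ∃ M1 : ℝ, 0 ≤ M1 ∧ M0 ≤ M1 := ⟨max 0 M0, le_max_left _ _, le_max_right _ _⟩
  refine ⟨(M1 + (C + C2)) * (2 : ℝ) ^ |η - 1|, by positivity, fun z h1 h2 => ?_⟩
  have hpos : 0 < 1 + |z.im| := by positivity
  rcases le_or_gt |z.im| 1 with h3 | h3
  · have h4 := hM0 z (by
      rw [Complex.mem_reProdIm]
      exact ⟨⟨h1, h2⟩, abs_le.1 h3⟩)
    have h5 := pw_small (t := |z.im|) (p := η - 1) (abs_nonneg _) h3
    calc ‖Gx k P z‖ ≤ (M1 + (C + C2)) * 1 := by linarith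
      _ ≤ (M1 + (C + C2)) * ((2 : ℝ) ^ |η - 1| * (1 + |z.im|) ^ (η - 1)) := by gcongr
      _ = _ := by ring
  · have h3' := h3.le
    have him : z.im ≠ 0 := by
      intro h0
      rw [h0, abs_zero] at h3
      linarith
    have hz1 : z ≠ 1 := by rintro rfl; simp at him
    have ht0 : 0 < |z.im| := by linarith
    have n0 : |z.im| ≤ ‖z‖ := Complex.abs_im_le_norm z
    have n1 : |z.im| ≤ ‖z - 1‖ := by
      have := Complex.abs_im_le_norm (z - 1)
      simpa using this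
    have n2 : ‖Hp P z‖ ≤ C2 / |z.im| := (hH z (h3'.trans n1)).trans (by gcongr)
    have n3 : ‖riemannZeta z ^ k / z‖ ≤ C * |z.im| ^ η / |z.im| := by
      rw [norm_div, norm_pow]
      exact div_le_div₀ (by positivity) (h z h1 h2 h3') ht0 n0
    rw [Gx_ne hz1]
    unfold G0
    have e1 : |z.im| ^ η / |z.im| = |z.im| ^ (η - 1) := by
      rw [Real.rpow_sub ht0, Real.rpow_one]
    have e2 : 1 / |z.im| ≤ |z.im| ^ (η - 1) := by
      rw [← e1]
      gcongr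
      exact Real.one_le_rpow h3' hη0
    have e3 : |z.im| ^ (η - 1) ≤ (2 : ℝ) ^ |η - 1| * (1 + |z.im|) ^ (η - 1) := pw_large h3'
    calc ‖riemannZeta z ^ k / z - Hp P z‖ ≤ C * |z.im| ^ η / |z.im| + C2 / |z.im| :=
          (norm_sub_le _ _).trans (add_le_add n3 n2)
      _ = C * (|z.im| ^ η / |z.im|) + C2 * (1 / |z.im|) := by ring
      _ ≤ C * |z.im| ^ (η - 1) + C2 * |z.im| ^ (η - 1) := by
          rw [e1]
          gcongr
      _ = (C + C2) * |z.im| ^ (η - 1) := by ring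
      _ ≤ (M1 + (C + C2)) * ((2 : ℝ) ^ |η - 1| * (1 + |z.im|) ^ (η - 1)) :=
          mul_le_mul (by linarith) e3 (by positivity) (by positivity)
      _ = _ := by ring

theorem dd_loc {k : ℕ} {P : ℝ[X]} (hk : 1 ≤ k) (hP : IsMain k P) : LocallyIntegrable (dd k P) := by
  obtain ⟨C, δ, hC, hδ, hδ2, hb⟩ := main_bd hk hP
  have h1 : LocallyIntegrable (fun u => C * Real.exp ((1 - δ) * u)) :=
    Continuous.locallyIntegrable (by fun_prop)
  refine h1.mono (dd_meas k P).aestronglyMeasurable (Eventually.of_forall fun u => ?_)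
  rw [Real.norm_eq_abs, Real.norm_eq_abs]
  exact (dd_le hC hb u).trans (le_abs_self _)

theorem gk_eq (k : ℕ) (P : ℝ[X]) (z : ℂ) : ∫ v, gk (dd k P) z v = lapC (dd k P) z := by
  unfold lapC
  rw [← integral_indicator measurableSet_Ioi]
  congr 1
  funext v
  unfold gk
  by_cases hv : v ∈ Ioi (0 : ℝ)
  · rw [indicator_of_mem hv, neg_mul]
  · rw [indicator_of_notMem hv]
    unfold dd
    rw [if_neg (show ¬ 0 < v from hv)]
    simp

theorem gk_integrable {k : ℕ} (hk : 1 ≤ k) {P : ℝ[X]} (hP : IsMain k P) :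
    Integrable (gk (dd k P) ((2 : ℝ) : ℂ)) := by
  obtain ⟨C, δ, hC, hδ, hδ2, hb⟩ := main_bd hk hP
  have h1 := LInt.complex (dd_meas k P) (z := ((2 : ℝ) : ℂ)) (by
    rw [Complex.ofReal_re]; exact dd_lint hC hb (by linarith))
  rw [← integrable_indicator_iff measurableSet_Ioi] at h1
  refine h1.congr (Eventually.of_forall fun v => ?_)
  unfold gk
  by_cases hv : v ∈ Ioi (0 : ℝ)
  · rw [indicator_of_mem hv, neg_mul]
  · rw [indicator_of_notMem hv]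
    unfold dd
    rw [if_neg (show ¬ 0 < v from hv)]
    simp

theorem dat {k : ℕ} (hk : 1 ≤ k) {P : ℝ[X]} (hP : IsMain k P) {σ η C : ℝ} (hσ : 0 < σ) (hσ1 : σ ≤ 2)
    (hC : 0 ≤ C)
    (h : ∀ z : ℂ, σ ≤ z.re → z.re ≤ 2 → 1 ≤ |z.im| → ‖riemannZeta z‖ ^ k ≤ C * |z.im| ^ η)
    (hη0 : 0 ≤ η) : ∃ M : ℝ, Dat (dd k P) (Gx k P) σ 2 η M := by
  obtain ⟨M, hM, hMb⟩ := G_bd hk hP hσ hC h hη0
  obtain ⟨C, δ, hC, hδ, hδ2, hb⟩ := main_bd hk hP
  refine ⟨M, ⟨dd_meas k P, fun u hu => if_neg (not_lt.2 hu), dd_loc hk hP, gk_integrable hk hP, hσ, hσ1,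
    hM, fun z h1 _ => Gx_diff hk hP (by linarith), fun z hz => ?_, hMb⟩⟩
  rw [gk_eq]
  exact Gx_eq hk P (a := 1 - δ) (by linarith) (fun w hw => dd_lint hC hb hw) z (by rw [hz]; linarith)

theorem main_deriv (P : ℝ[X]) (u : ℝ) : HasDerivAt (fun u => Real.exp u * P.eval u)
    (Real.exp u * (P + derivative P).eval u) u := by
  have h := (Real.hasDerivAt_exp u).mul (P.hasDerivAt u)
  refine h.congr_deriv ?_
  rw [eval_add]
  ring

/-- pointwise bound from the growth of zeta -/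
theorem point {k : ℕ} (hk : 1 ≤ k) {P : ℝ[X]} (hP : IsMain k P) {σ η κ C : ℝ} (hσ : 0 < σ)
    (hσ1 : σ ≤ 1) (hη0 : 0 ≤ η) (hηκ : η < κ) (hC : 0 ≤ C)
    (h : ∀ z : ℂ, σ ≤ z.re → z.re ≤ 2 → 1 ≤ |z.im| → ‖riemannZeta z‖ ^ k ≤ C * |z.im| ^ η)
    {ε : ℝ} (hε : 0 < ε) :
    ∃ B : ℝ, ∀ x : ℝ, 1 ≤ x → |D k x - x * P.eval (Real.log x)| ≤ B * x ^ ((σ + κ) / (1 + κ) + ε) := by
  have hκ0 : 0 ≤ κ := by linarith
  obtain ⟨M, D0⟩ := dat hk hP hσ (by linarith) hC h hη0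
  obtain ⟨n, hn⟩ := exists_nat_ge κ
  obtain ⟨C3, hC3, hav⟩ := avr_bound D0 hηκ hκ0 (n := n) (by linarith)
  obtain ⟨C1, hC1, hp⟩ := TH935.LP.poly_bd (P + derivative P) ε hε
  obtain ⟨B, hB, h1⟩ := mono_bound (d := dd k P) (D := fun u => D k (Real.exp u))
    (m := fun u => Real.exp u * P.eval u) (m' := fun u => Real.exp u * (P + derivative P).eval u)
    (C1 := C1) (ρ1 := 1 + ε) (C := C3) (σ := σ) (κ := κ) (n := n + 1) hC1 (by linarith) hC3 hσ.le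
    (fun u v _ huv => D_mono k (Real.exp_le_exp.2 huv)) (main_deriv P) (fun u hu => by
      have h2 := hp (Real.exp u) (Real.one_le_exp hu)
      rw [Real.log_exp, ← Real.exp_mul] at h2
      rw [abs_mul, abs_of_pos (Real.exp_pos u)]
      calc Real.exp u * |(P + derivative P).eval u| ≤ Real.exp u * (C1 * Real.exp (u * ε)) := by gcongr
        _ = C1 * (Real.exp u * Real.exp (u * ε)) := by ring
        _ = C1 * Real.exp ((1 + ε) * u) := by rw [← Real.exp_add]; ring_nf)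
    (fun u hu => if_pos hu) D0.loc hav
  obtain ⟨A, hA0, h2⟩ := opt_bound (d := dd k P) hB hκ0 hσ1 hε.le h1
  obtain ⟨C4, δ, hC4, hδ, hδ2, hb⟩ := main_bd hk hP
  have hρ : 0 ≤ (σ + κ) / (1 + κ) + ε := by positivity
  refine ⟨A + C4 * Real.exp 1, fun x hx => ?_⟩
  have hx0 : 0 < x := by linarith
  have hxρ : 1 ≤ x ^ ((σ + κ) / (1 + κ) + ε) := Real.one_le_rpow hx hρ
  rcases le_or_gt 1 (Real.log x) with hl | hl
  · have h3 := h2 (Real.log x) hl
    unfold dd at h3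
    rw [if_pos (by linarith), Real.exp_log hx0] at h3
    refine h3.trans ?_
    have e1 : Real.exp (((σ + κ) / (1 + κ) + ε) * Real.log x) = x ^ ((σ + κ) / (1 + κ) + ε) := by
      rw [Real.rpow_def_of_pos hx0, mul_comm]
    rw [e1]
    gcongr
    have : 0 ≤ C4 * Real.exp 1 := by positivity
    linarith
  · have h3 := hb x hx
    have h4 : x ^ (1 - δ) ≤ Real.exp 1 := by
      have h5 : x ≤ Real.exp 1 := (Real.log_le_iff_le_exp hx0).1 hl.le
      calc x ^ (1 - δ) ≤ x ^ (1 : ℝ) := Real.rpow_le_rpow_of_exponent_le hx (by linarith)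
        _ = x := Real.rpow_one x
        _ ≤ _ := h5
    calc |D k x - x * P.eval (Real.log x)| ≤ C4 * x ^ (1 - δ) := h3
      _ ≤ C4 * Real.exp 1 := by gcongr
      _ ≤ (A + C4 * Real.exp 1) * 1 := by linarith
      _ ≤ _ := by gcongr

end Pool.Agent.Y853.PZ
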