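import Pool.Agent.Y853.PZ.Shift

set_option autoImplicit false

/-! Means over short intervals of a function from bounds for its Laplace transform. -/

namespace Pool.Agent.Y853.PZ

open Complex MeasureTheory Filter Topology Set FourierTransform
open scoped Convolution

/-- the transform of the uniform density on `(0, δ)` -/
noncomputable def Kd (δ : ℝ) (z : ℂ) : ℂ := (1 - Complex.exp (-(δ * z))) / (δ * z)

/-- the mean over `(u - δ, u)` -/
noncomputable def av (d : ℝ → ℝ) (δ u : ℝ) : ℝ := δ⁻¹ * ∫ v in (u - δ)..u, d v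

theorem exp_sub_le {z : ℂ} (hz : 0 ≤ z.re) : ‖1 - Complex.exp (-z)‖ ≤ ‖z‖ := by
  have h1 : (1 : ℂ) - Complex.exp (-z) = z * ∫ t : ℝ in (0 : ℝ)..1, Complex.exp (-z * t) := by
    rcases eq_or_ne z 0 with h | h
    · rw [h]; simp
    · rw [integral_exp_mul_complex (neg_ne_zero.2 h)]
      simp only [ofReal_one, mul_one, ofReal_zero, mul_zero, Complex.exp_zero]
      field_simp
      ring
  rw [h1, norm_mul]
  have h2 : ‖∫ t : ℝ in (0 : ℝ)..1, Complex.exp (-z * t)‖ ≤ 1 * |1 - 0| := by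
    apply intervalIntegral.norm_integral_le_of_norm_le_const
    intro t ht
    rw [uIoc_of_le zero_le_one] at ht
    rw [Complex.norm_exp]
    simp only [neg_mul, neg_re, mul_re, ofReal_re, ofReal_im, mul_zero, sub_zero]
    exact Real.exp_le_one_iff.2 (by have := mul_nonneg hz ht.1.le; linarith)
  rw [sub_zero, abs_one, mul_one] at h2
  nlinarith [norm_nonneg z]

theorem Kd_le {δ κ : ℝ} (hδ : 0 < δ) (hκ0 : 0 ≤ κ) (hκ1 : κ ≤ 1) {z : ℂ} (hz : 0 < z.re) :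
    ‖Kd δ z‖ ≤ 2 * (δ * ‖z‖) ^ (-κ) := by
  have hz0 : 0 < ‖z‖ := lt_of_lt_of_le hz (Complex.re_le_norm z)
  have hw : 0 < δ * ‖z‖ := by positivity
  have hn : ‖((δ : ℂ) * z)‖ = δ * ‖z‖ := by
    rw [norm_mul, Complex.norm_real, Real.norm_of_nonneg hδ.le]
  have hre : 0 ≤ ((δ : ℂ) * z).re := by
    simp only [mul_re, ofReal_re, ofReal_im, zero_mul, sub_zero]
    positivity
  unfold Kd
  rw [norm_div, hn]
  rcases le_or_gt (δ * ‖z‖) 1 with h | h
  · have h1 := exp_sub_le hre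
    rw [hn] at h1
    have h2 : ‖1 - Complex.exp (-(δ * z))‖ / (δ * ‖z‖) ≤ 1 := by
      rw [div_le_one hw]; exact h1
    have h3 : 1 ≤ (δ * ‖z‖) ^ (-κ) := by
      rw [Real.rpow_neg hw.le]
      exact (one_le_inv₀ (by positivity)).2 (Real.rpow_le_one hw.le h hκ0)
    linarith
  · have h1 : ‖1 - Complex.exp (-(δ * z))‖ ≤ 2 := by
      refine (norm_sub_le _ _).trans ?_
      rw [norm_one, Complex.norm_exp]
      have : Real.exp (-((δ : ℂ) * z)).re ≤ 1 := Real.exp_le_one_iff.2 (by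
        rw [Complex.neg_re]; linarith)
      linarith
    have h2 : (δ * ‖z‖)⁻¹ ≤ (δ * ‖z‖) ^ (-κ) := by
      rw [← Real.rpow_neg_one]
      exact Real.rpow_le_rpow_of_exponent_le h.le (by linarith)
    rw [div_eq_mul_inv]
    exact mul_le_mul h1 h2 (by positivity) (by norm_num)

theorem Kd_diff {δ : ℝ} (hδ : 0 < δ) {z : ℂ} (hz : z ≠ 0) : DifferentiableAt ℂ (Kd δ) z := by
  unfold Kd
  refine DifferentiableAt.div (by fun_prop) (by fun_prop) ?_
  exact mul_ne_zero (ofReal_ne_zero.2 hδ.ne') hz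

/-- the kernel -/
noncomputable def ak (δ : ℝ) (z : ℂ) : ℝ → ℂ :=
  (Ioc 0 δ).indicator fun v => ((δ⁻¹ : ℝ) : ℂ) * Complex.exp (-z * v)

theorem ak_int {δ : ℝ} (z : ℂ) : Integrable (ak δ z) := by
  unfold ak
  rw [integrable_indicator_iff measurableSet_Ioc]
  exact (Continuous.integrableOn_Icc (by fun_prop)).mono_set Ioc_subset_Icc_self

theorem ak_integral {δ : ℝ} (hδ : 0 < δ) {z : ℂ} (hz : z ≠ 0) : ∫ v, ak δ z v = Kd δ z := by
  unfold ak Kd
  rw [integral_indicator measurableSet_Ioc, ← intervalIntegral.integral_of_le hδ.le,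
    intervalIntegral.integral_const_mul, integral_exp_mul_complex (neg_ne_zero.2 hz)]
  have hδ' : (δ : ℂ) ≠ 0 := ofReal_ne_zero.2 hδ.ne'
  simp only [ofReal_inv, ofReal_zero, mul_zero, Complex.exp_zero]
  rw [show -z * (δ : ℂ) = -(δ * z) by ring]
  field_simp
  ring

/-- the twisted function -/
noncomputable def gk (d : ℝ → ℝ) (z : ℂ) : ℝ → ℂ := fun v => (d v : ℂ) * Complex.exp (-z * v)

theorem conv_eq (d : ℝ → ℝ) {δ : ℝ} (hδ : 0 < δ) (z : ℂ) (u : ℝ) :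
    (ak δ z ⋆[ContinuousLinearMap.mul ℝ ℂ, volume] gk d z) u =
      Complex.exp (-z * u) * (av d δ u : ℂ) := by
  unfold MeasureTheory.convolution ak gk av
  have h1 : ∀ t : ℝ, (ContinuousLinearMap.mul ℝ ℂ)
      ((Ioc 0 δ).indicator (fun v : ℝ => ((δ⁻¹ : ℝ) : ℂ) * Complex.exp (-z * v)) t)
      ((d (u - t) : ℂ) * Complex.exp (-z * ((u - t : ℝ) : ℂ))) =
      (Ioc 0 δ).indicator (fun t : ℝ => (Complex.exp (-z * u) * ((δ⁻¹ : ℝ) : ℂ)) * (d (u - t) : ℂ)) t := by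
    intro t
    rw [ContinuousLinearMap.mul_apply']
    by_cases ht : t ∈ Ioc 0 δ
    · rw [indicator_of_mem ht, indicator_of_mem ht]
      have : Complex.exp (-z * u) = Complex.exp (-z * t) * Complex.exp (-z * ((u - t : ℝ) : ℂ)) := by
        rw [← Complex.exp_add]
        congr 1
        push_cast
        ring
      rw [this]
      ring
    · rw [indicator_of_notMem ht, indicator_of_notMem ht, zero_mul]
  simp_rw [h1]
  rw [integral_indicator measurableSet_Ioc, ← intervalIntegral.integral_of_le hδ.le,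
    intervalIntegral.integral_const_mul, intervalIntegral.integral_comp_sub_left
      (fun v => (d v : ℂ)) u, sub_zero, intervalIntegral.integral_ofReal]
  push_cast
  ring

structure Dat (d : ℝ → ℝ) (G : ℂ → ℂ) (σ c η M : ℝ) : Prop where
  meas : Measurable d
  zero : ∀ u ≤ 0, d u = 0
  loc : LocallyIntegrable d
  int : Integrable (gk d c)
  σ0 : 0 < σ
  σc : σ ≤ c
  M0 : 0 ≤ M
  diff : ∀ z : ℂ, σ ≤ z.re → z.re ≤ c → DifferentiableAt ℂ G z
  eq : ∀ z : ℂ, z.re = c → ∫ v, gk d z v = G z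
  bd : ∀ z : ℂ, σ ≤ z.re → z.re ≤ c → ‖G z‖ ≤ M * (1 + |z.im|) ^ (η - 1)

variable {d : ℝ → ℝ} {G : ℂ → ℂ} {σ c η M : ℝ}

theorem gk_int (D : Dat d G σ c η M) {z : ℂ} (hz : z.re = c) : Integrable (gk d z) := by
  refine D.int.mono ((Complex.measurable_ofReal.comp D.meas).mul (by fun_prop)).aestronglyMeasurable
    (Eventually.of_forall fun v => ?_)
  unfold gk
  rw [norm_mul, norm_mul, Complex.norm_exp, Complex.norm_exp]
  simp only [neg_mul, neg_re, mul_re, ofReal_re, ofReal_im, mul_zero, sub_zero, hz]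
  exact le_rfl

/-- the integrand -/
noncomputable def HH (G : ℂ → ℂ) (δ u : ℝ) (z : ℂ) : ℂ := Complex.exp (z * u) * (Kd δ z * G z)

theorem norm_low {σ : ℝ} (hσ : 0 < σ) {z : ℂ} (hz : σ ≤ z.re) :
    (1 + |z.im|) / (1 + σ⁻¹) ≤ ‖z‖ := by
  rw [div_le_iff₀ (by positivity)]
  have h1 : |z.im| ≤ ‖z‖ := Complex.abs_im_le_norm z
  have h2 : σ ≤ ‖z‖ := hz.trans (Complex.re_le_norm z)
  have h3 : 1 ≤ ‖z‖ * σ⁻¹ := by
    rw [← div_eq_mul_inv, le_div_iff₀ hσ]; linarith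
  linarith

theorem KG_le (D : Dat d G σ c η M) {δ κ : ℝ} (hδ : 0 < δ) (hκ0 : 0 ≤ κ)
    (hκ1 : κ ≤ 1) {z : ℂ} (h1 : σ ≤ z.re) (h2 : z.re ≤ c) :
    ‖Kd δ z * G z‖ ≤ (2 * M * (1 + σ⁻¹) ^ κ * δ ^ (-κ)) * (1 + |z.im|) ^ (η - κ - 1) := by
  have hσ := D.σ0
  have hb := D.bd z h1 h2
  have hM := D.M0
  have hk := Kd_le hδ hκ0 hκ1 (z := z) (lt_of_lt_of_le hσ h1)
  have hpos : 0 < 1 + |z.im| := by positivity
  have hcσ : 0 < 1 + σ⁻¹ := by positivity
  have hlow := norm_low hσ h1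
  have h3 : (δ * ‖z‖) ^ (-κ) ≤ δ ^ (-κ) * ((1 + σ⁻¹) ^ κ * (1 + |z.im|) ^ (-κ)) := by
    rw [Real.mul_rpow hδ.le (norm_nonneg z)]
    gcongr
    calc ‖z‖ ^ (-κ) ≤ ((1 + |z.im|) / (1 + σ⁻¹)) ^ (-κ) :=
          Real.rpow_le_rpow_of_nonpos (by positivity) hlow (by linarith)
      _ = (1 + σ⁻¹) ^ κ * (1 + |z.im|) ^ (-κ) := by
          rw [Real.div_rpow hpos.le hcσ.le, Real.rpow_neg hcσ.le, div_inv_eq_mul, mul_comm]
  rw [norm_mul]
  have h4 : (1 + |z.im|) ^ (η - κ - 1) = (1 + |z.im|) ^ (-κ) * (1 + |z.im|) ^ (η - 1) := by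
    rw [← Real.rpow_add hpos]; ring_nf
  rw [h4]
  calc ‖Kd δ z‖ * ‖G z‖
      ≤ (2 * (δ ^ (-κ) * ((1 + σ⁻¹) ^ κ * (1 + |z.im|) ^ (-κ)))) *
        (M * (1 + |z.im|) ^ (η - 1)) := by
        gcongr
        exact hk.trans (by linarith)
    _ = _ := by ring

theorem HH_le (D : Dat d G σ c η M) {δ κ u : ℝ} (hδ : 0 < δ) (hκ0 : 0 ≤ κ)
    (hκ1 : κ ≤ 1) {z : ℂ} (h1 : σ ≤ z.re) (h2 : z.re ≤ c) :
    ‖HH G δ u z‖ ≤ Real.exp (z.re * u) *
      (2 * M * (1 + σ⁻¹) ^ κ * δ ^ (-κ)) * (1 + ‖z.im‖) ^ (-(1 + κ - η)) := by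
  have hσ := D.σ0
  have hb := D.bd z h1 h2
  have hM := D.M0
  have hk := Kd_le hδ hκ0 hκ1 (z := z) (lt_of_lt_of_le hσ h1)
  have hpos : 0 < 1 + |z.im| := by positivity
  have hcσ : 0 < 1 + σ⁻¹ := by positivity
  have hlow := norm_low hσ h1
  have h3 : (δ * ‖z‖) ^ (-κ) ≤ δ ^ (-κ) * ((1 + σ⁻¹) ^ κ * (1 + |z.im|) ^ (-κ)) := by
    rw [Real.mul_rpow hδ.le (norm_nonneg z)]
    gcongr
    calc ‖z‖ ^ (-κ) ≤ ((1 + |z.im|) / (1 + σ⁻¹)) ^ (-κ) :=
          Real.rpow_le_rpow_of_nonpos (by positivity) hlow (by linarith)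
      _ = (1 + σ⁻¹) ^ κ * (1 + |z.im|) ^ (-κ) := by
          rw [Real.div_rpow hpos.le hcσ.le, Real.rpow_neg hcσ.le, div_inv_eq_mul, mul_comm]
  unfold HH
  rw [norm_mul, norm_mul, Complex.norm_exp]
  have hre : (z * (u : ℂ)).re = z.re * u := by simp
  rw [hre, Real.norm_eq_abs]
  have h4 : (1 + |z.im|) ^ (-(1 + κ - η)) = (1 + |z.im|) ^ (-κ) * (1 + |z.im|) ^ (η - 1) := by
    rw [← Real.rpow_add hpos]; ring_nf
  rw [h4]
  calc Real.exp (z.re * u) * (‖Kd δ z‖ * ‖G z‖)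
      ≤ Real.exp (z.re * u) * ((2 * (δ ^ (-κ) * ((1 + σ⁻¹) ^ κ * (1 + |z.im|) ^ (-κ)))) *
        (M * (1 + |z.im|) ^ (η - 1))) := by
        gcongr
        exact hk.trans (by linarith)
    _ = _ := by ring

theorem av_cont (D : Dat d G σ c η M) (δ : ℝ) : Continuous (av d δ) := by
  have h1 : ∀ u, av d δ u = δ⁻¹ * ((∫ v in (0 : ℝ)..u, d v) - ∫ v in (0 : ℝ)..(u - δ), d v) := by
    intro u
    unfold av
    congr 1
    have hi : ∀ a b : ℝ, IntervalIntegrable d volume a b := fun a b =>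
      (D.loc.integrableOn_isCompact isCompact_uIcc).intervalIntegrable
    rw [eq_sub_iff_add_eq, add_comm, intervalIntegral.integral_add_adjacent_intervals (hi _ _) (hi _ _)]
  have hi : ∀ a b : ℝ, IntervalIntegrable d volume a b := fun a b =>
    (D.loc.integrableOn_isCompact isCompact_uIcc).intervalIntegrable
  have h2 := intervalIntegral.continuous_primitive hi 0
  rw [show av d δ = fun u => δ⁻¹ * ((∫ v in (0 : ℝ)..u, d v) - ∫ v in (0 : ℝ)..(u - δ), d v) from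
    funext h1]
  exact continuous_const.mul (h2.sub (h2.comp (by fun_prop)))

/-- inversion and shift -/
theorem av_eq (D : Dat d G σ c η M) {δ κ : ℝ} (hδ : 0 < δ) (hκ0 : 0 ≤ κ) (hκ1 : κ ≤ 1)
    (hκη : η < κ) (u : ℝ) :
    (av d δ u : ℂ) = ((2 * Real.pi)⁻¹ : ℝ) * ∫ t : ℝ, HH G δ u (σ + t * I) := by
  have hc0 : 0 < c := lt_of_lt_of_le D.σ0 D.σc
  have hbint : Integrable (fun y : ℝ => (1 + ‖y‖) ^ (-(1 + κ - η))) :=
    integrable_one_add_norm (by simp; linarith)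
  have hlim0 : Tendsto (fun x : ℝ => (1 + x) ^ (-(1 + κ - η))) atTop (𝓝 0) :=
    (tendsto_rpow_neg_atTop (by linarith)).comp (tendsto_const_nhds.add_atTop tendsto_id)
  have hlim1 : Tendsto (fun y : ℝ => (1 + ‖y‖) ^ (-(1 + κ - η))) atTop (𝓝 0) :=
    hlim0.comp tendsto_norm_atTop_atTop
  have hlim2 : Tendsto (fun y : ℝ => (1 + ‖y‖) ^ (-(1 + κ - η))) atBot (𝓝 0) :=
    hlim0.comp (tendsto_abs_atBot_atTop (G := ℝ))
  have hHd : ∀ v : ℝ, ∀ z : ℂ, σ ≤ z.re → z.re ≤ c → DifferentiableAt ℂ (HH G δ v) z := by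
    intro v z h1 h2
    have hz0 : z ≠ 0 := by
      rintro rfl
      rw [Complex.zero_re] at h1
      linarith [D.σ0]
    unfold HH
    exact DifferentiableAt.mul (by fun_prop) ((Kd_diff hδ hz0).mul (D.diff z h1 h2))
  -- the shift
  have hshift : ∫ t : ℝ, HH G δ u (σ + t * I) = ∫ t : ℝ, HH G δ u (c + t * I) := by
    obtain ⟨A, hA⟩ : ∃ A : ℝ, A = max (Real.exp (σ * u)) (Real.exp (c * u)) *
      (2 * M * (1 + σ⁻¹) ^ κ * δ ^ (-κ)) := ⟨_, rfl⟩
    refine shift D.σc (b := fun y : ℝ => A * (1 + ‖y‖) ^ (-(1 + κ - η))) (hbint.const_mul _) ?_ ?_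
      (hHd u) ?_
    · simpa using hlim1.const_mul A
    · simpa using hlim2.const_mul A
    · intro z h1 h2
      refine (HH_le D hδ hκ0 hκ1 (u := u) h1 h2).trans ?_
      have hM := D.M0
      have hσ := D.σ0
      have h3 : Real.exp (z.re * u) ≤ max (Real.exp (σ * u)) (Real.exp (c * u)) := by
        rcases le_total 0 u with hu | hu
        · exact (Real.exp_le_exp.2 (mul_le_mul_of_nonneg_right h2 hu)).trans (le_max_right _ _)
        · exact (Real.exp_le_exp.2 (mul_le_mul_of_nonpos_right h1 hu)).trans (le_max_left _ _)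
      rw [hA]
      gcongr
  rw [hshift]
  -- the Fourier transform
  obtain ⟨h, hh⟩ : ∃ h : ℝ → ℂ, h = fun v : ℝ => Complex.exp (-(c : ℂ) * v) * (av d δ v : ℂ) :=
    ⟨_, rfl⟩
  have hconv : h = (ak δ c ⋆[ContinuousLinearMap.mul ℝ ℂ, volume] gk d c) := by
    funext v
    rw [conv_eq d hδ, hh]
  have hhi : Integrable h := by
    rw [hconv]
    exact (ak_int (δ := δ) (c : ℂ)).integrable_convolution _ D.int
  have hhc : Continuous h := by
    rw [hh]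
    have := av_cont D δ
    fun_prop
  have hF : ∀ ξ : ℝ, 𝓕 h ξ = Kd δ (c + (2 * Real.pi * ξ : ℝ) * I) * G (c + (2 * Real.pi * ξ : ℝ) * I) := by
    intro ξ
    set z : ℂ := c + (2 * Real.pi * ξ : ℝ) * I with hz
    have hzre : z.re = c := by rw [hz]; simp
    have hz0 : z ≠ 0 := by
      intro h0
      rw [h0, Complex.zero_re] at hzre
      linarith
    rw [Real.fourier_real_eq_integral_exp_smul]
    have h1 : ∀ v : ℝ, Complex.exp (((-2 * Real.pi * v * ξ : ℝ) : ℂ) * I) • h v =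
        (ak δ z ⋆[ContinuousLinearMap.mul ℝ ℂ, volume] gk d z) v := by
      intro v
      rw [conv_eq d hδ, hh, smul_eq_mul]
      simp only []
      rw [← mul_assoc, ← Complex.exp_add]
      congr 2
      rw [hz]
      push_cast
      ring
    simp_rw [h1]
    rw [integral_convolution (ContinuousLinearMap.mul ℝ ℂ) (ak_int z) (gk_int D hzre),
      ak_integral hδ hz0, D.eq z hzre]
    rfl
  have hHline : ∀ v ξ : ℝ, HH G δ v (c + ((2 * Real.pi * ξ : ℝ) : ℂ) * I) =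
      Complex.exp ((c + ((2 * Real.pi * ξ : ℝ) : ℂ) * I) * v) * 𝓕 h ξ := by
    intro v ξ
    rw [hF ξ]
    rfl
  have hlineint : ∀ v : ℝ, Integrable (fun t : ℝ => HH G δ v (c + t * I)) := by
    intro v
    refine line_int (b := fun y : ℝ => (Real.exp (c * v) * (2 * M * (1 + σ⁻¹) ^ κ * δ ^ (-κ))) *
      (1 + ‖y‖) ^ (-(1 + κ - η))) (hbint.const_mul _) (fun z hz => hHd v z (by rw [hz]; exact D.σc)
        hz.le) (fun z hz => ?_)
    have := HH_le D hδ hκ0 hκ1 (u := v) (z := z) (by rw [hz]; exact D.σc) hz.le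
    rw [hz] at this
    exact this
  have hFi : Integrable (𝓕 h) := by
    have h1 : Integrable (fun ξ : ℝ => HH G δ 0 (c + ((2 * Real.pi * ξ : ℝ) : ℂ) * I)) := by
      have := (hlineint 0).comp_mul_left' (R := 2 * Real.pi) (by positivity)
      exact this
    refine h1.congr (Eventually.of_forall fun ξ => ?_)
    simp only []
    rw [hHline 0 ξ]
    simp
  have hinv := congrFun (Continuous.fourierInv_fourier_eq hhc hhi hFi) u
  rw [Real.fourierInv_eq'] at hinv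
  have h2 : ∀ ξ : ℝ, Complex.exp (((2 * Real.pi * inner ℝ ξ u : ℝ) : ℂ) * I) • 𝓕 h ξ =
      Complex.exp (-(c : ℂ) * u) * HH G δ u (c + ((2 * Real.pi * ξ : ℝ) : ℂ) * I) := by
    intro ξ
    rw [hHline u ξ, smul_eq_mul, ← mul_assoc, ← Complex.exp_add]
    congr 2
    simp only [RCLike.inner_apply, conj_trivial]
    push_cast
    ring
  simp_rw [h2] at hinv
  rw [integral_const_mul, hh] at hinv
  simp only [] at hinv
  have h3 := mul_left_cancel₀ (Complex.exp_ne_zero _) hinv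
  rw [← h3]
  have h4 := Measure.integral_comp_mul_left (fun t : ℝ => HH G δ u (c + (t : ℂ) * I)) (2 * Real.pi)
  rw [h4, abs_of_nonneg (by positivity)]
  rfl

theorem av_bound (D : Dat d G σ c η M) {κ : ℝ} (hκ0 : 0 ≤ κ) (hκ1 : κ ≤ 1) (hκη : η < κ)
    {J : ℝ} (hJ : J = ∫ y : ℝ, (1 + ‖y‖) ^ (-(1 + κ - η))) (δ u : ℝ) (hδ : 0 < δ) :
    |av d δ u| ≤ (2 * Real.pi)⁻¹ * (2 * M * (1 + σ⁻¹) ^ κ) * J * Real.exp (σ * u) * δ ^ (-κ) := by
  have hM := D.M0
  have hσ := D.σ0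
  have hJ0 : 0 ≤ J := by
    rw [hJ]
    exact integral_nonneg fun y => by positivity
  have hbint : Integrable (fun y : ℝ => (1 + ‖y‖) ^ (-(1 + κ - η))) :=
    integrable_one_add_norm (by simp; linarith)
  have h1 := av_eq D hδ hκ0 hκ1 hκη u
  have h2 : |av d δ u| = ‖(av d δ u : ℂ)‖ := by rw [Complex.norm_real, Real.norm_eq_abs]
  rw [h2, h1, norm_mul, Complex.norm_real, Real.norm_of_nonneg (by positivity)]
  have h3 : ‖∫ t : ℝ, HH G δ u (σ + t * I)‖ ≤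
      ∫ t : ℝ, (Real.exp (σ * u) * (2 * M * (1 + σ⁻¹) ^ κ * δ ^ (-κ))) *
        (1 + ‖t‖) ^ (-(1 + κ - η)) := by
    refine norm_integral_le_of_norm_le (hbint.const_mul _) (Eventually.of_forall fun t => ?_)
    have := HH_le D hδ hκ0 hκ1 (u := u) (z := σ + t * I) (by simp) (by simpa using D.σc)
    simpa using this
  rw [integral_const_mul, ← hJ] at h3
  calc (2 * Real.pi)⁻¹ * ‖∫ t : ℝ, HH G δ u (σ + t * I)‖
      ≤ (2 * Real.pi)⁻¹ * ((Real.exp (σ * u) * (2 * M * (1 + σ⁻¹) ^ κ * δ ^ (-κ))) * J) := by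
        gcongr
    _ = _ := by ring

/-- the means satisfy the same hypotheses, with a better decay -/
theorem Dat.mean (D : Dat d G σ c η M) {δ κ : ℝ} (hδ : 0 < δ) (hκ0 : 0 ≤ κ) (hκ1 : κ ≤ 1) :
    Dat (av d δ) (fun z => Kd δ z * G z) σ c (η - κ) (2 * M * (1 + σ⁻¹) ^ κ * δ ^ (-κ)) := by
  have hM := D.M0
  have hσ := D.σ0
  have hc0 : 0 < c := lt_of_lt_of_le D.σ0 D.σc
  have hcv : ∀ z : ℂ, gk (av d δ) z = (ak δ z ⋆[ContinuousLinearMap.mul ℝ ℂ, volume] gk d z) := by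
    intro z
    funext v
    rw [conv_eq d hδ]
    unfold gk
    rw [mul_comm]
  refine ⟨(av_cont D δ).measurable, fun u hu => ?_, (av_cont D δ).locallyIntegrable, ?_, hσ, D.σc,
    by positivity, fun z h1 h2 => ?_, fun z hz => ?_, fun z h1 h2 => ?_⟩
  · unfold av
    have h1 : ∫ v in (u - δ)..u, d v = ∫ v in (u - δ)..u, (0 : ℝ) := by
      apply intervalIntegral.integral_congr
      intro v hv
      rw [uIcc_of_le (by linarith)] at hv
      exact D.zero v (hv.2.trans hu)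
    rw [h1]
    simp
  · rw [hcv]
    exact (ak_int (δ := δ) (c : ℂ)).integrable_convolution _ D.int
  · have hz0 : z ≠ 0 := by
      rintro rfl
      rw [Complex.zero_re] at h1
      linarith
    exact (Kd_diff hδ hz0).mul (D.diff z h1 h2)
  · have hz0 : z ≠ 0 := by
      rintro rfl
      rw [Complex.zero_re] at hz
      linarith
    rw [hcv, integral_convolution (ContinuousLinearMap.mul ℝ ℂ) (ak_int z) (gk_int D hz),
      ak_integral hδ hz0, D.eq z hz]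
    rfl
  · exact KG_le D hδ hκ0 hκ1 h1 h2

/-- iterated means -/
noncomputable def avr (d : ℝ → ℝ) (δ : ℝ) : ℕ → ℝ → ℝ
  | 0 => d
  | n + 1 => av (avr d δ n) δ

theorem Dat.iter (D : Dat d G σ c η M) {δ κ : ℝ} (hδ : 0 < δ) (hκ0 : 0 ≤ κ) (hκ1 : κ ≤ 1) (n : ℕ) :
    ∃ G' : ℂ → ℂ, Dat (avr d δ n) G' σ c (η - n * κ) (M * (2 * (1 + σ⁻¹) ^ κ * δ ^ (-κ)) ^ n) := by
  induction n with
  | zero =>
    refine ⟨G, ?_⟩
    simpa [avr] using D
  | succ n ih =>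
    obtain ⟨G', h⟩ := ih
    have h2 := h.mean hδ hκ0 hκ1
    refine ⟨fun z => Kd δ z * G' z, ?_⟩
    have e1 : η - n * κ - κ = η - ((n + 1 : ℕ) : ℝ) * κ := by push_cast; ring
    have e2 : 2 * (M * (2 * (1 + σ⁻¹) ^ κ * δ ^ (-κ)) ^ n) * (1 + σ⁻¹) ^ κ * δ ^ (-κ) =
        M * (2 * (1 + σ⁻¹) ^ κ * δ ^ (-κ)) ^ (n + 1) := by rw [pow_succ]; ring
    rw [e1, e2] at h2
    exact h2

theorem avr_bound (D : Dat d G σ c η M) {τ : ℝ} (hτη : η < τ) (hτ0 : 0 ≤ τ) {n : ℕ}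
    (hτ : τ ≤ n + 1) :
    ∃ C : ℝ, 0 ≤ C ∧ ∀ δ u : ℝ, 0 < δ → |avr d δ (n + 1) u| ≤ C * Real.exp (σ * u) * δ ^ (-τ) := by
  have hM := D.M0
  have hσ := D.σ0
  have hn : (0 : ℝ) < n + 1 := by positivity
  obtain ⟨κ, hκ⟩ : ∃ κ : ℝ, κ = τ / (n + 1) := ⟨_, rfl⟩
  have hκ0 : 0 ≤ κ := by rw [hκ]; positivity
  have hκ1 : κ ≤ 1 := by rw [hκ, div_le_one hn]; exact hτ
  have hκn : (n + 1) * κ = τ := by rw [hκ]; field_simp
  have hκη : η - n * κ < κ := by nlinarith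
  obtain ⟨J, hJ⟩ : ∃ J : ℝ, J = ∫ y : ℝ, (1 + ‖y‖) ^ (-(1 + κ - (η - n * κ))) := ⟨_, rfl⟩
  have hJ0 : 0 ≤ J := by
    rw [hJ]
    exact integral_nonneg fun y => by positivity
  refine ⟨(2 * Real.pi)⁻¹ * (2 * (M * (2 * (1 + σ⁻¹) ^ κ) ^ n) * (1 + σ⁻¹) ^ κ) * J, by positivity,
    fun δ u hδ => ?_⟩
  obtain ⟨G', D'⟩ := D.iter hδ hκ0 hκ1 n
  have h1 := av_bound D' hκ0 hκ1 hκη hJ δ u hδ
  have h2 : (2 * Real.pi)⁻¹ * (2 * (M * (2 * (1 + σ⁻¹) ^ κ * δ ^ (-κ)) ^ n) * (1 + σ⁻¹) ^ κ) * J *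
      Real.exp (σ * u) * δ ^ (-κ) = (2 * Real.pi)⁻¹ * (2 * (M * (2 * (1 + σ⁻¹) ^ κ) ^ n) *
        (1 + σ⁻¹) ^ κ) * J * Real.exp (σ * u) * δ ^ (-τ) := by
    have h3 : δ ^ (-τ) = (δ ^ (-κ)) ^ n * δ ^ (-κ) := by
      rw [← pow_succ, ← Real.rpow_natCast, ← Real.rpow_mul hδ.le]
      congr 1
      push_cast
      rw [← hκn]
      ring
    rw [h3, mul_pow]
    ring
  rw [h2] at h1
  exact h1

end Pool.Agent.Y853.PZ
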