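import Mathlib

set_option autoImplicit false

/-! Shift of a vertical line of integration, integrable majorant. -/

namespace Pool.Agent.Y853.PZ

open Complex MeasureTheory Filter Topology Set

theorem line_cont {H : ℂ → ℂ} {x : ℝ} (hd : ∀ z : ℂ, z.re = x → DifferentiableAt ℂ H z) :
    Continuous (fun t : ℝ => H (x + t * I)) := by
  rw [continuous_iff_continuousAt]
  intro t
  have h1 : ContinuousAt H ((x : ℂ) + t * I) := (hd _ (by simp)).continuousAt
  have h2 : ContinuousAt (fun t : ℝ => (x : ℂ) + t * I) t := by fun_prop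
  exact ContinuousAt.comp (g := H) (f := fun t : ℝ => (x : ℂ) + t * I) h1 h2

theorem line_int {H : ℂ → ℂ} {x : ℝ} {b : ℝ → ℝ} (hb : Integrable b)
    (hd : ∀ z : ℂ, z.re = x → DifferentiableAt ℂ H z)
    (hH : ∀ z : ℂ, z.re = x → ‖H z‖ ≤ b z.im) : Integrable (fun t : ℝ => H (x + t * I)) := by
  refine Integrable.mono' hb (line_cont hd).aestronglyMeasurable (Eventually.of_forall fun t => ?_)
  have h3 := hH ((x : ℂ) + t * I) (by simp)
  simpa using h3

/-- shift of the line of integration -/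
theorem shift {H : ℂ → ℂ} {σ c : ℝ} (hσc : σ ≤ c) {b : ℝ → ℝ} (hb : Integrable b)
    (hb1 : Tendsto b atTop (𝓝 0)) (hb2 : Tendsto b atBot (𝓝 0))
    (hd : ∀ z : ℂ, σ ≤ z.re → z.re ≤ c → DifferentiableAt ℂ H z)
    (hH : ∀ z : ℂ, σ ≤ z.re → z.re ≤ c → ‖H z‖ ≤ b z.im) :
    ∫ t : ℝ, H (σ + t * I) = ∫ t : ℝ, H (c + t * I) := by
  have hrect : ∀ T : ℝ, (∫ x in σ..c, H (x + ((-T : ℝ) : ℂ) * I)) - (∫ x in σ..c, H (x + (T : ℂ) * I)) +
      I • (∫ y in (-T)..T, H (c + y * I)) - I • (∫ y in (-T)..T, H (σ + y * I)) = 0 := by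
    intro T
    have h1 := Complex.integral_boundary_rect_eq_zero_of_differentiableOn H
      ((σ : ℂ) + ((-T : ℝ) : ℂ) * I) ((c : ℂ) + (T : ℂ) * I) (by
        intro z hz
        have h2 := hz.1
        simp only [add_re, ofReal_re, mul_re, I_re, mul_zero, ofReal_im, I_im, mul_one, sub_self,
          add_zero, mem_preimage, uIcc_of_le hσc] at h2
        exact (hd z h2.1 h2.2).differentiableWithinAt)
    simpa using h1
  have hV : ∀ T : ℝ, ‖∫ x in σ..c, H (x + (T : ℂ) * I)‖ ≤ b T * |c - σ| := by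
    intro T
    apply intervalIntegral.norm_integral_le_of_norm_le_const
    intro x hx
    rw [uIoc_of_le hσc] at hx
    have h3 := hH ((x : ℂ) + T * I) (by simpa using hx.1.le) (by simpa using hx.2)
    simpa using h3
  have hA : Tendsto (fun T : ℝ => ∫ y in (-T)..T, H (c + y * I)) atTop (𝓝 (∫ t : ℝ, H (c + t * I))) :=
    intervalIntegral_tendsto_integral (line_int hb (fun z hz => hd z (by rw [hz]; exact hσc) hz.le)
      (fun z hz => hH z (by rw [hz]; exact hσc) hz.le)) tendsto_neg_atTop_atBot tendsto_id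
  have hB : Tendsto (fun T : ℝ => ∫ y in (-T)..T, H (σ + y * I)) atTop (𝓝 (∫ t : ℝ, H (σ + t * I))) :=
    intervalIntegral_tendsto_integral (line_int hb (fun z hz => hd z hz.ge (by rw [hz]; exact hσc))
      (fun z hz => hH z hz.ge (by rw [hz]; exact hσc))) tendsto_neg_atTop_atBot tendsto_id
  have hV1 : Tendsto (fun T : ℝ => ∫ x in σ..c, H (x + (T : ℂ) * I)) atTop (𝓝 0) := by
    apply squeeze_zero_norm (fun T => hV T)
    simpa using hb1.mul_const |c - σ|
  have hV2 : Tendsto (fun T : ℝ => ∫ x in σ..c, H (x + ((-T : ℝ) : ℂ) * I)) atTop (𝓝 0) := by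
    apply squeeze_zero_norm (fun T => hV (-T))
    simpa using (hb2.comp tendsto_neg_atTop_atBot).mul_const |c - σ|
  have hlim := ((hV2.sub hV1).add (hA.const_smul I)).sub (hB.const_smul I)
  simp only [hrect] at hlim
  have h0 := tendsto_nhds_unique hlim tendsto_const_nhds
  simp only [sub_zero, zero_add, smul_eq_mul] at h0
  have h1 : I * ((∫ t : ℝ, H (c + t * I)) - ∫ t : ℝ, H (σ + t * I)) = 0 := by
    rw [mul_sub]; exact h0
  have h2 := (mul_eq_zero.1 h1).resolve_left I_ne_zero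
  exact (sub_eq_zero.1 h2).symm

end Pool.Agent.Y853.PZ
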