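import Pool.Agent.Y853.PZ.Tr
import Pool.Agent.TH988.RB.Lan

set_option autoImplicit false

/-! One-sided bounds and the Laplace transform. -/

namespace Pool.Agent.Y853.PZ

open Filter Topology Set Polynomial MeasureTheory
open Pool.Agent.W263.BSD

/-- change of variables -/
theorem cv {a b : ℝ} (ha : 0 < a) (hab : a ≤ b) (g : ℝ → ℝ) :
    ∫ x in a..b, g x = ∫ u in (Real.log a)..(Real.log b), Real.exp u * g (Real.exp u) := by
  have hb : 0 < b := by linarith
  have hl : Real.log a ≤ Real.log b := Real.log_le_log ha hab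
  rw [intervalIntegral.integral_of_le hab, intervalIntegral.integral_of_le hl]
  have h := integral_image_eq_integral_abs_deriv_smul (s := Ioc (Real.log a) (Real.log b))
    (f := Real.exp) (f' := Real.exp) measurableSet_Ioc
    (fun x _ => (Real.hasDerivAt_exp x).hasDerivWithinAt) (Real.exp_injective.injOn) g
  have himg : Real.exp '' Ioc (Real.log a) (Real.log b) = Ioc a b := by
    ext y
    simp only [mem_image, mem_Ioc]
    constructor
    · rintro ⟨x, ⟨h1, h2⟩, rfl⟩
      exact ⟨(Real.log_lt_iff_lt_exp ha).1 h1, (Real.le_log_iff_exp_le hb).1 h2⟩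
    · rintro ⟨h1, h2⟩
      have hy : 0 < y := ha.trans h1
      exact ⟨Real.log y, ⟨Real.log_lt_log ha h1, Real.log_le_log hy h2⟩, Real.exp_log hy⟩
  rw [himg] at h
  rw [h]
  apply setIntegral_congr_fun measurableSet_Ioc
  intro u _
  simp only []
  rw [abs_of_pos (Real.exp_pos u), smul_eq_mul]

/-- bounded exponential growth gives interval integrability -/
theorem ii_of {f : ℝ → ℝ} (hf : Measurable f) {C c : ℝ} (h : ∀ u, |f u| ≤ C * Real.exp (c * u))
    (a b : ℝ) : IntervalIntegrable f volume a b := by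
  have h1 : IntervalIntegrable (fun u => C * Real.exp (c * u)) volume a b :=
    Continuous.intervalIntegrable (by fun_prop) _ _
  exact h1.mono_fun hf.aestronglyMeasurable (Eventually.of_forall fun u => by
    show ‖f u‖ ≤ ‖C * Real.exp (c * u)‖
    rw [Real.norm_eq_abs, Real.norm_eq_abs]
    exact (h u).trans (le_abs_self _))

/-- dyadic bounds give convergence of the Laplace integral -/
theorem lint_of_dyadic {f : ℝ → ℝ} (hf : Measurable f) (hf0 : ∀ u, 0 ≤ f u) {A c : ℝ}
    (hb : ∀ u, |f u| ≤ A * Real.exp (c * u)) {L C θ : ℝ} (hL : 0 < L) (hθ : 0 ≤ θ)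
    (h : ∀ v : ℝ, 0 ≤ v → ∫ u in v..(v + L), f u ≤ C * Real.exp (θ * v)) {w : ℝ} (hw : θ < w) :
    LInt f w := by
  have hC : 0 ≤ C := by
    have h1 := h 0 le_rfl
    have h2 : 0 ≤ ∫ u in (0 : ℝ)..(0 + L), f u :=
      intervalIntegral.integral_nonneg (by linarith) fun u _ => hf0 u
    rw [mul_zero, Real.exp_zero, mul_one] at h1
    linarith
  have hii : ∀ a b : ℝ, IntervalIntegrable (fun u => f u * Real.exp (-(w * u))) volume a b :=
    fun a b => (ii_of hf hb a b).mul_continuousOn (by fun_prop)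
  obtain ⟨r, hr⟩ : ∃ r : ℝ, r = Real.exp (-((w - θ) * L)) := ⟨_, rfl⟩
  have hr0 : 0 ≤ r := by rw [hr]; positivity
  have hr1 : r < 1 := by
    have : 0 < (w - θ) * L := mul_pos (by linarith) hL
    rw [hr, ← Real.exp_zero]
    exact Real.exp_lt_exp.2 (by linarith)
  unfold LInt
  refine integrableOn_Ioi_of_intervalIntegral_norm_bounded (l := atTop) (b := fun n : ℕ => (n : ℝ) * L)
    (C * (1 - r)⁻¹) 0 (fun n => (hii 0 (n * L)).1)
    (Tendsto.atTop_mul_const hL tendsto_natCast_atTop_atTop) (Eventually.of_forall fun n => ?_)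
  have h1 : ∫ x in (0 : ℝ)..(n * L), ‖f x * Real.exp (-(w * x))‖ =
      ∑ j ∈ Finset.range n, ∫ x in ((j : ℝ) * L)..((j + 1 : ℕ) : ℝ) * L, ‖f x * Real.exp (-(w * x))‖ := by
    have := intervalIntegral.sum_integral_adjacent_intervals (a := fun j : ℕ => (j : ℝ) * L)
      (f := fun x => ‖f x * Real.exp (-(w * x))‖) (n := n) (μ := volume)
      (fun j _ => (hii _ _).norm)
    simp only [Nat.cast_zero, zero_mul] at this
    exact this.symm
  rw [h1]
  calc ∑ j ∈ Finset.range n, ∫ x in ((j : ℝ) * L)..((j + 1 : ℕ) : ℝ) * L, ‖f x * Real.exp (-(w * x))‖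
      ≤ ∑ j ∈ Finset.range n, C * r ^ j := by
        refine Finset.sum_le_sum fun j _ => ?_
        have hj : (0 : ℝ) ≤ (j : ℝ) * L := by positivity
        have e1 : ((j + 1 : ℕ) : ℝ) * L = (j : ℝ) * L + L := by push_cast; ring
        rw [e1]
        have h2 : ∫ x in ((j : ℝ) * L)..((j : ℝ) * L + L), ‖f x * Real.exp (-(w * x))‖ ≤
            ∫ x in ((j : ℝ) * L)..((j : ℝ) * L + L), Real.exp (-(w * ((j : ℝ) * L))) * f x := by
          refine intervalIntegral.integral_mono_on (by linarith) (hii _ _).norm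
            ((ii_of hf hb _ _).const_mul _) fun x hx => ?_
          rw [norm_mul, Real.norm_of_nonneg (hf0 x), Real.norm_of_nonneg (Real.exp_pos _).le, mul_comm]
          gcongr
          · exact hf0 x
          · linarith
          · exact hx.1
        refine h2.trans ?_
        rw [intervalIntegral.integral_const_mul]
        refine (mul_le_mul_of_nonneg_left (h _ hj) (Real.exp_pos _).le).trans (le_of_eq ?_)
        rw [hr, ← Real.exp_nat_mul, mul_left_comm, ← Real.exp_add]
        congr 2
        ring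
    _ = C * ∑ j ∈ Finset.range n, r ^ j := by rw [Finset.mul_sum]
    _ ≤ C * (1 - r)⁻¹ := by
        apply mul_le_mul_of_nonneg_left _ hC
        rw [← tsum_geometric_of_lt_one hr0 hr1]
        exact (summable_geometric_of_lt_one hr0 hr1).sum_le_tsum _ fun _ _ => by positivity

/-- and conversely -/
theorem dyadic_of_lint {f : ℝ → ℝ} (hf0 : ∀ u, 0 ≤ f u) {w : ℝ} (hw : 0 ≤ w) (h : LInt f w)
    {L : ℝ} (hL : 0 ≤ L) : ∃ C : ℝ, 0 ≤ C ∧ ∀ v : ℝ, 0 ≤ v → ∫ u in v..(v + L), f u ≤ C * Real.exp (w * v) := by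
  have hI0 : 0 ≤ ∫ u in Ioi (0 : ℝ), f u * Real.exp (-(w * u)) :=
    setIntegral_nonneg measurableSet_Ioi fun u _ => mul_nonneg (hf0 u) (Real.exp_pos _).le
  refine ⟨Real.exp (w * L) * ∫ u in Ioi (0 : ℝ), f u * Real.exp (-(w * u)), by positivity,
    fun v hv => ?_⟩
  have h1 : IntegrableOn (fun u => f u * Real.exp (-(w * u))) (Ioc v (v + L)) :=
    h.mono_set fun u hu => lt_of_le_of_lt hv hu.1
  rw [intervalIntegral.integral_of_le (by linarith)]
  have h2 : ∀ u ∈ Ioc v (v + L), f u ≤ Real.exp (w * (v + L)) * (f u * Real.exp (-(w * u))) := by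
    intro u hu
    have h3 : 1 ≤ Real.exp (w * (v + L)) * Real.exp (-(w * u)) := by
      rw [← Real.exp_add]
      apply Real.one_le_exp
      have := mul_le_mul_of_nonneg_left hu.2 hw
      linarith
    have := hf0 u
    nlinarith
  calc ∫ u in Ioc v (v + L), f u ≤ ∫ u in Ioc v (v + L),
        Real.exp (w * (v + L)) * (f u * Real.exp (-(w * u))) :=
        integral_mono_of_nonneg (Eventually.of_forall hf0) (h1.const_mul _)
          ((ae_restrict_iff' measurableSet_Ioc).2 (Eventually.of_forall h2))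
    _ = Real.exp (w * (v + L)) * ∫ u in Ioc v (v + L), f u * Real.exp (-(w * u)) := by
        rw [integral_const_mul]
    _ ≤ Real.exp (w * (v + L)) * ∫ u in Ioi (0 : ℝ), f u * Real.exp (-(w * u)) := by
        have hsub : Ioc v (v + L) ⊆ Ioi (0 : ℝ) := fun u hu => lt_of_le_of_lt hv hu.1
        refine mul_le_mul_of_nonneg_left ?_ (Real.exp_pos _).le
        refine setIntegral_mono_set h ?_ hsub.eventuallyLE
        exact Eventually.of_forall fun u => mul_nonneg (hf0 u) (Real.exp_pos _).le
    _ = _ := by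
        rw [show w * (v + L) = w * L + w * v by ring, Real.exp_add]
        ring

/-- one side gives the other side -/
theorem other_side {k : ℕ} (hk : 1 ≤ k) {P : ℝ[X]} (hP : IsMain k P) {θ e : ℝ} (hθ : 0 ≤ θ)
    (h : ∀ w > θ, LInt (fun u => max (e * dd k P u) 0) w) :
    ∀ w > θ, LInt (fun u => max (-(e * dd k P u)) 0) w := by
  obtain ⟨C, δ, hC, hδ, hδ2, hb⟩ := main_bd hk hP
  have hm := dd_meas k P
  have hL : ∀ w > 1 - δ, LInt (dd k P) w := fun w hw => dd_lint hC hb hw
  have hme : Measurable (fun u => e * dd k P u) := hm.const_mul e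
  obtain ⟨g, hg⟩ : ∃ g : ℝ → ℝ, g = fun w : ℝ =>
      (lapC (fun u => max (e * dd k P u) 0) (w : ℂ) - (e : ℂ) * Gx k P (w : ℂ)).re := ⟨_, rfl⟩
  have hlan := TH988.RB.landau_lap (f := fun u => max (-(e * dd k P u)) 0)
    (hme.neg.max measurable_const) (fun u _ => le_max_right _ _) (a := θ) (w1 := 1)
    (fun w hw => by
      have h1 := ((hL w (by linarith)).const_mul e).neg
      exact LInt.posPart (hme.neg) h1)
    (g := g) (fun w hw => ?_) (fun w hw hw2 => ?_)
  · exact hlan.1
  · rw [hg]
    refine AnalyticAt.re_ofReal (f := fun z : ℂ => lapC (fun u => max (e * dd k P u) 0) z -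
      (e : ℂ) * Gx k P z) ?_
    have hopen := isOpen_half θ
    have hdiff : DifferentiableOn ℂ (fun z : ℂ => lapC (fun u => max (e * dd k P u) 0) z -
        (e : ℂ) * Gx k P z) {z : ℂ | θ < z.re} := by
      intro z hz
      have hz' : θ < z.re := hz
      exact ((lapC_differentiableAt (hme.max measurable_const) h hz').sub
        ((differentiableAt_const _).mul (Gx_diff hk hP (by linarith)))).differentiableWithinAt
    exact hdiff.analyticAt (hopen.mem_nhds (by show θ < (w : ℂ).re; rw [Complex.ofReal_re]; exact hw))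
  · have h1 := hL w (by linarith)
    have h2 := h w hw2
    have h3 : (fun u => max (-(e * dd k P u)) 0) = fun u => max (e * dd k P u) 0 - e * dd k P u := by
      funext u
      rcases le_total 0 (e * dd k P u) with h4 | h4
      · rw [max_eq_right (by linarith), max_eq_left h4, sub_self]
      · rw [max_eq_left (by linarith), max_eq_right h4, zero_sub]
    rw [h3, lap_sub h2 (h1.const_mul e), lap_const_mul, hg]
    simp only []
    rw [lapC_ofReal, ← Gx_eq hk P (a := 1 - δ) (by linarith) hL (w : ℂ) (by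
      rw [Complex.ofReal_re]; linarith), lapC_ofReal]
    rw [← Complex.ofReal_mul, ← Complex.ofReal_sub, Complex.ofReal_re]

theorem lint_abs {f : ℝ → ℝ} {w : ℝ} (h1 : LInt (fun u => max (f u) 0) w)
    (h2 : LInt (fun u => max (-f u) 0) w) : LInt (fun u => |f u|) w := by
  have := h1.add h2
  have e : (fun u => |f u|) = fun u => max (f u) 0 + max (-f u) 0 := by
    funext u
    rcases le_total 0 (f u) with h | h
    · rw [abs_of_nonneg h, max_eq_left h, max_eq_right (by linarith), add_zero]
    · rw [abs_of_nonpos h, max_eq_right h, max_eq_left (by linarith), zero_add]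
  rw [e]
  exact this

end Pool.Agent.Y853.PZ
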