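import Pool.Agent.Y853.PZ.Base
import Pool.Agent.W263.BSD.Core
import Pool.Agent.W263.BSD.Euler2
import Pool.Agent.H295R2.WM1

set_option autoImplicit false

/-! The Laplace transform of the remainder. -/

namespace Pool.Agent.Y853.PZ

open Filter Topology Set Polynomial MeasureTheory
open Pool.Agent.W263.BSD

/-- the coefficients as complex numbers -/
theorem zeta_pow_LS (k : ℕ) {s : ℂ} (hs : 1 < s.re) :
    LSeriesSummable (fun n => ((((ArithmeticFunction.zeta : ArithmeticFunction ℕ) ^ k) n : ℕ) : ℂ)) s ∧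
    LSeries (fun n => ((((ArithmeticFunction.zeta : ArithmeticFunction ℕ) ^ k) n : ℕ) : ℂ)) s =
      riemannZeta s ^ k := by
  induction k with
  | zero =>
    have h1 : (fun n => ((((ArithmeticFunction.zeta : ArithmeticFunction ℕ) ^ 0) n : ℕ) : ℂ)) =
        fun n => (((1 : ArithmeticFunction ℂ) n)) := by
      funext n
      rw [pow_zero, ArithmeticFunction.one_apply, ArithmeticFunction.one_apply]
      split_ifs <;> simp
    rw [h1, pow_zero]
    constructor
    · have : (fun n => (1 : ArithmeticFunction ℂ) n) = LSeries.delta := by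
        funext n
        rw [ArithmeticFunction.one_apply]
        rfl
      rw [this]
      show Summable (LSeries.term LSeries.delta s)
      have h2 : LSeries.term LSeries.delta s = fun n => if n = 1 then (1 : ℂ) else 0 :=
        funext fun n => LSeries.term_delta s n
      rw [h2]
      exact (hasSum_ite_eq 1 1).summable
    · have : (fun n => (1 : ArithmeticFunction ℂ) n) = LSeries.delta := by
        funext n
        rw [ArithmeticFunction.one_apply]
        rfl
      rw [this, LSeries_delta]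
      rfl
  | succ k ih =>
    have h0 : (fun n => ((((ArithmeticFunction.zeta : ArithmeticFunction ℕ) ^ (k + 1)) n : ℕ) : ℂ)) =
        fun n => ((((((ArithmeticFunction.zeta : ArithmeticFunction ℕ) ^ k : ArithmeticFunction ℕ)) :
          ArithmeticFunction ℂ) * ((ArithmeticFunction.zeta : ArithmeticFunction ℕ) : ArithmeticFunction ℂ)) n) := by
      funext n
      rw [← ArithmeticFunction.natCoe_mul, ArithmeticFunction.natCoe_apply, pow_succ]
    have hz : LSeriesSummable (fun n => (((ArithmeticFunction.zeta : ArithmeticFunction ℕ) :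
        ArithmeticFunction ℂ) n)) s := by
      have := ArithmeticFunction.LSeriesSummable_zeta_iff.2 hs
      simpa using this
    have hk : LSeriesSummable (fun n => ((((ArithmeticFunction.zeta : ArithmeticFunction ℕ) ^ k :
        ArithmeticFunction ℕ) : ArithmeticFunction ℂ) n)) s := by
      simpa using ih.1
    rw [h0]
    refine ⟨ArithmeticFunction.LSeriesSummable_mul hk hz, ?_⟩
    rw [ArithmeticFunction.LSeries_mul' hk hz, pow_succ]
    congr 1
    · rw [← ih.2]
      rfl
    · rw [← ArithmeticFunction.LSeries_zeta_eq_riemannZeta hs]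
      rfl

theorem zeta_lap {k : ℕ} (hk : 1 ≤ k) {s : ℂ} (hs : 1 < s.re) :
    lapC (fun u => D k (Real.exp u)) s = riemannZeta s ^ k / s := by
  have hs0 : s ≠ 0 := by
    rintro rfl
    rw [Complex.zero_re] at hs
    linarith
  obtain ⟨C, hC, h⟩ := D_le hk (ε := (s.re - 1) / 2) (by linarith)
  have h1 := LSeries_eq_mul_integral_of_nonneg
    (fun n => ((((ArithmeticFunction.zeta : ArithmeticFunction ℕ) ^ k) n : ℕ) : ℝ))
    (r := 1 + (s.re - 1) / 2) (by linarith) (s := s) (by linarith) (by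
      refine Asymptotics.IsBigO.of_bound C ?_
      filter_upwards [eventually_ge_atTop 1] with n hn
      have h2 := h n (by exact_mod_cast hn)
      unfold D at h2
      rw [Nat.floor_natCast] at h2
      rw [Real.norm_of_nonneg (Finset.sum_nonneg fun _ _ => Nat.cast_nonneg _),
        Real.norm_of_nonneg (by positivity)]
      exact h2) (fun n => Nat.cast_nonneg _)
  have h3 := (zeta_pow_LS k hs).2
  have h4 : LSeries (fun n => (((((ArithmeticFunction.zeta : ArithmeticFunction ℕ) ^ k) n : ℕ) : ℝ) : ℂ)) s =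
      riemannZeta s ^ k := by
    rw [← h3]
    congr 1
  rw [h4, Pool.Agent.H295R2.integral_Ioi_exp] at h1
  rw [h1, mul_div_cancel_left₀ _ hs0]
  unfold lapC
  apply setIntegral_congr_fun measurableSet_Ioi
  intro u _
  simp only []
  have h5 : (∑ n ∈ Finset.Icc 1 ⌊Real.exp u⌋₊,
      (((((ArithmeticFunction.zeta : ArithmeticFunction ℕ) ^ k) n : ℕ) : ℝ) : ℂ)) =
      ((D k (Real.exp u) : ℝ) : ℂ) := by
    unfold D
    push_cast
    rfl
  rw [h5]
  have h6 : ((Real.exp u : ℝ) : ℂ) ^ (-(s + 1)) = Complex.exp (-(s + 1) * u) := by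
    rw [Complex.cpow_def_of_ne_zero (by exact_mod_cast (Real.exp_pos u).ne'), ← Complex.ofReal_log
      (Real.exp_pos u).le, Real.log_exp]
    congr 1
    ring
  rw [h6, Complex.ofReal_exp]
  rw [show -(s * (u : ℂ)) = (u : ℂ) + -(s + 1) * u by ring, Complex.exp_add]
  ring

/-- the transform of the main term -/
noncomputable def Hp (P : ℝ[X]) (s : ℂ) : ℂ :=
  ∑ j ∈ Finset.range (P.natDegree + 1), (((P.coeff j * j.factorial : ℝ)) : ℂ) * ((s - 1)⁻¹) ^ (j + 1)

theorem poly_lint (P : ℝ[X]) {w : ℝ} (hw : 1 < w) : LInt (fun u => Real.exp u * P.eval u) w := by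
  have h1 : ∀ j : ℕ, LInt (fun u => Real.exp u * u ^ j) w := by
    intro j
    have h2 := pow_LInt j (w := w - 1) (by linarith)
    unfold LInt at h2 ⊢
    refine h2.congr_fun (fun u _ => ?_) measurableSet_Ioi
    simp only []
    rw [show -((w - 1) * u) = u + -(w * u) by ring, Real.exp_add]
    ring
  have h2 : (fun u : ℝ => Real.exp u * P.eval u) = fun u => ∑ j ∈ Finset.range (P.natDegree + 1),
      P.coeff j * (Real.exp u * u ^ j) := by
    funext u
    rw [Polynomial.eval_eq_sum_range, Finset.mul_sum]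
    refine Finset.sum_congr rfl fun j _ => by ring
  rw [h2]
  unfold LInt
  have h3 : (fun u : ℝ => (∑ j ∈ Finset.range (P.natDegree + 1), P.coeff j * (Real.exp u * u ^ j)) *
      Real.exp (-(w * u))) = fun u => ∑ j ∈ Finset.range (P.natDegree + 1),
        (P.coeff j * (Real.exp u * u ^ j)) * Real.exp (-(w * u)) := by
    funext u
    rw [Finset.sum_mul]
  rw [h3]
  exact integrable_finset_sum _ fun j _ => (h1 j).const_mul (P.coeff j)

theorem poly_lap (P : ℝ[X]) {s : ℂ} (hs : 1 < s.re) :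
    lapC (fun u => Real.exp u * P.eval u) s = Hp P s := by
  have hre : 0 < (s - 1).re := by simp; linarith
  unfold lapC Hp
  have h2 : ∀ u : ℝ, (((Real.exp u * P.eval u : ℝ)) : ℂ) * Complex.exp (-(s * u)) =
      ∑ j ∈ Finset.range (P.natDegree + 1), ((P.coeff j * j.factorial : ℝ) : ℂ) *
        ((((u ^ j / j.factorial : ℝ)) : ℂ) * Complex.exp (-((s - 1) * u))) := by
    intro u
    rw [Polynomial.eval_eq_sum_range]
    push_cast
    rw [show -((s - 1) * (u : ℂ)) = u + -(s * u) by ring, Complex.exp_add, Finset.mul_sum,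
      Finset.sum_mul]
    refine Finset.sum_congr rfl fun j _ => ?_
    have : ((j.factorial : ℕ) : ℂ) ≠ 0 := by exact_mod_cast j.factorial_ne_zero
    field_simp
  simp_rw [h2]
  rw [integral_finset_sum]
  · refine Finset.sum_congr rfl fun j _ => ?_
    rw [integral_const_mul]
    have h3 := pow_lapC j hre
    unfold lapC at h3
    rw [h3, one_div, inv_pow]
  · intro j _
    have h3 : LInt (fun u => u ^ j / j.factorial) (s - 1).re := by
      have := (pow_LInt j hre).const_mul (1 / (j.factorial : ℝ))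
      simpa [div_eq_inv_mul] using this
    exact (LInt.complex (by fun_prop) h3).const_mul _

theorem Hp_diff (P : ℝ[X]) {s : ℂ} (hs : s ≠ 1) : DifferentiableAt ℂ (Hp P) s := by
  unfold Hp
  have : s - 1 ≠ 0 := sub_ne_zero.2 hs
  fun_prop (disch := assumption)

theorem Hp_le (P : ℝ[X]) : ∃ C : ℝ, 0 ≤ C ∧ ∀ s : ℂ, 1 ≤ ‖s - 1‖ → ‖Hp P s‖ ≤ C / ‖s - 1‖ := by
  refine ⟨∑ j ∈ Finset.range (P.natDegree + 1), |P.coeff j * j.factorial|,
    Finset.sum_nonneg fun _ _ => abs_nonneg _, fun s hs => ?_⟩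
  unfold Hp
  refine (norm_sum_le _ _).trans ?_
  rw [Finset.sum_div]
  refine Finset.sum_le_sum fun j _ => ?_
  rw [norm_mul, Complex.norm_real, Real.norm_eq_abs, norm_pow, norm_inv, div_eq_mul_inv]
  have h1 : ‖s - 1‖⁻¹ ≤ 1 := inv_le_one_of_one_le₀ hs
  have h2 : (‖s - 1‖⁻¹) ^ (j + 1) ≤ ‖s - 1‖⁻¹ := by
    rw [pow_succ]
    have : (‖s - 1‖⁻¹) ^ j ≤ 1 := pow_le_one₀ (by positivity) h1
    nlinarith [inv_nonneg.2 (norm_nonneg (s - 1))]
  exact mul_le_mul_of_nonneg_left h2 (abs_nonneg _)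

/-- the remainder in the variable `u = log x`, zero for `u ≤ 0` -/
noncomputable def dd (k : ℕ) (P : ℝ[X]) (u : ℝ) : ℝ :=
  if 0 < u then D k (Real.exp u) - Real.exp u * P.eval u else 0

theorem dd_meas (k : ℕ) (P : ℝ[X]) : Measurable (dd k P) := by
  unfold dd
  refine Measurable.ite measurableSet_Ioi ?_ measurable_const
  exact ((D_meas k).comp Real.measurable_exp).sub (by fun_prop)

theorem dd_le {k : ℕ} {P : ℝ[X]} {C δ : ℝ} (hC : 0 ≤ C)
    (h : ∀ x : ℝ, 1 ≤ x → |D k x - x * P.eval (Real.log x)| ≤ C * x ^ (1 - δ)) (u : ℝ) :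
    |dd k P u| ≤ C * Real.exp ((1 - δ) * u) := by
  unfold dd
  split_ifs with hu
  · have h1 := h (Real.exp u) (Real.one_le_exp hu.le)
    rw [Real.log_exp, ← Real.exp_mul] at h1
    rw [mul_comm (1 - δ) u]
    exact h1
  · rw [abs_zero]; positivity

theorem dd_lint {k : ℕ} {P : ℝ[X]} {C δ : ℝ} (hC : 0 ≤ C)
    (h : ∀ x : ℝ, 1 ≤ x → |D k x - x * P.eval (Real.log x)| ≤ C * x ^ (1 - δ)) {w : ℝ}
    (hw : 1 - δ < w) : LInt (dd k P) w :=
  LInt.of_bound (dd_meas k P) ((LInt_exp hw).const_mul C) fun u _ => dd_le hC h u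

/-- the transform -/
noncomputable def G0 (k : ℕ) (P : ℝ[X]) (s : ℂ) : ℂ := riemannZeta s ^ k / s - Hp P s

theorem lap_dd {k : ℕ} (hk : 1 ≤ k) (P : ℝ[X]) {s : ℂ} (hs : 1 < s.re) : lapC (dd k P) s = G0 k P s := by
  unfold G0
  rw [← zeta_lap hk hs, ← poly_lap P hs]
  unfold lapC
  rw [← integral_sub]
  · apply setIntegral_congr_fun measurableSet_Ioi
    intro u hu
    simp only []
    unfold dd
    rw [if_pos (show 0 < u from hu)]
    push_cast
    ring
  · obtain ⟨C, hC, h⟩ := D_le hk (ε := (s.re - 1) / 2) (by linarith)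
    refine LInt.complex ((D_meas k).comp Real.measurable_exp) ?_
    refine LInt.of_bound ((D_meas k).comp Real.measurable_exp)
      ((LInt_exp (c := 1 + (s.re - 1) / 2) (w := s.re) (by linarith)).const_mul C) fun u hu => ?_
    have h1 := h (Real.exp u) (Real.one_le_exp hu.le)
    rw [← Real.exp_mul, mul_comm u] at h1
    simp only [Function.comp_apply]
    rw [abs_of_nonneg (D_nonneg _ _)]
    exact h1
  · exact LInt.complex (by fun_prop) (poly_lint P hs)

/-- the identity extends -/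
theorem ident {k : ℕ} (hk : 1 ≤ k) (P : ℝ[X]) {a : ℝ} (ha : 0 ≤ a) (h : ∀ w > a, LInt (dd k P) w) :
    ∀ z : ℂ, a < z.re → z ≠ 1 → lapC (dd k P) z = G0 k P z := by
  obtain ⟨N, hN⟩ : ∃ N : ℕ, N = k + P.natDegree := ⟨_, rfl⟩
  have hA : AnalyticOnNhd ℂ (fun z : ℂ => (z - 1) ^ (N + 1) * lapC (dd k P) z) {z : ℂ | a < z.re} := by
    refine DifferentiableOn.analyticOnNhd (fun z hz => ?_) (isOpen_half a)
    have h1 := lapC_differentiableAt (dd_meas k P) h (z := z) hz
    exact (DifferentiableAt.mul (by fun_prop) h1).differentiableWithinAt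
  have hB : AnalyticOnNhd ℂ (fun z : ℂ => riemannZeta₁ z ^ k * (z - 1) ^ (N + 1 - k) / z -
      ∑ j ∈ Finset.range (P.natDegree + 1), (((P.coeff j * j.factorial : ℝ)) : ℂ) *
        (z - 1) ^ (N - j)) {z : ℂ | a < z.re} := by
    refine DifferentiableOn.analyticOnNhd (fun z hz => ?_) (isOpen_half a)
    have hz0 : z ≠ 0 := by
      rintro rfl
      have : a < (0 : ℂ).re := hz
      rw [Complex.zero_re] at this
      linarith
    have h1 : DifferentiableAt ℂ riemannZeta₁ z := differentiable_riemannZeta₁ z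
    apply DifferentiableAt.differentiableWithinAt
    fun_prop (disch := assumption)
  have hform : ∀ z : ℂ, z ≠ 1 → (z - 1) ^ (N + 1) * G0 k P z =
      riemannZeta₁ z ^ k * (z - 1) ^ (N + 1 - k) / z -
      ∑ j ∈ Finset.range (P.natDegree + 1), (((P.coeff j * j.factorial : ℝ)) : ℂ) *
        (z - 1) ^ (N - j) := by
    intro z hz
    have hz1 : z - 1 ≠ 0 := sub_ne_zero.2 hz
    unfold G0 Hp
    rw [riemannZeta_eq_inv_sub_mul hz, mul_sub, Finset.mul_sum]
    congr 1
    · have h2 : (z - 1) ^ (N + 1) = (z - 1) ^ (N + 1 - k) * (z - 1) ^ k := by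
        rw [← pow_add]
        congr 1
        omega
      rw [mul_pow, inv_pow, h2]
      field_simp
    · refine Finset.sum_congr rfl fun j hj => ?_
      rw [Finset.mem_range] at hj
      have h2 : (z - 1) ^ (N + 1) = (z - 1) ^ (N - j) * (z - 1) ^ (j + 1) := by
        rw [← pow_add]
        congr 1
        omega
      rw [h2, inv_pow]
      field_simp
  have hz0 : (((max a 1 + 1 : ℝ)) : ℂ) ∈ {z : ℂ | a < z.re} := by
    show a < (((max a 1 + 1 : ℝ)) : ℂ).re
    rw [Complex.ofReal_re]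
    have := le_max_left a 1
    linarith
  have h3 := hA.eqOn_of_preconnected_of_eventuallyEq hB (preconn_half a) hz0 (by
    have hz1 : 1 < (((max a 1 + 1 : ℝ)) : ℂ).re := by
      rw [Complex.ofReal_re]
      have := le_max_right a 1
      linarith
    filter_upwards [(isOpen_half 1).mem_nhds hz1] with z hz
    have hz' : 1 < z.re := hz
    rw [lap_dd hk P hz']
    refine hform z ?_
    rintro rfl
    rw [Complex.one_re] at hz'
    exact lt_irrefl _ hz')
  intro z hz hz1
  have h4 := h3 (show z ∈ {z : ℂ | a < z.re} from hz)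
  simp only [] at h4
  rw [← hform z hz1] at h4
  exact mul_left_cancel₀ (pow_ne_zero _ (sub_ne_zero.2 hz1)) h4

noncomputable def Gx (k : ℕ) (P : ℝ[X]) (z : ℂ) : ℂ := if z = 1 then lapC (dd k P) 1 else G0 k P z

theorem Gx_ne {k : ℕ} {P : ℝ[X]} {z : ℂ} (hz : z ≠ 1) : Gx k P z = G0 k P z := if_neg hz

theorem Gx_eq {k : ℕ} (hk : 1 ≤ k) (P : ℝ[X]) {a : ℝ} (ha : 0 ≤ a) (h : ∀ w > a, LInt (dd k P) w) :
    ∀ z : ℂ, a < z.re → lapC (dd k P) z = Gx k P z := by
  intro z hz
  by_cases hz1 : z = 1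
  · unfold Gx
    rw [if_pos hz1, hz1]
  · rw [Gx_ne hz1]
    exact ident hk P ha h z hz hz1

theorem Gx_diff {k : ℕ} (hk : 1 ≤ k) {P : ℝ[X]} (hP : IsMain k P) {z : ℂ} (hz : 0 < z.re) :
    DifferentiableAt ℂ (Gx k P) z := by
  by_cases hz1 : z = 1
  · obtain ⟨C, δ, hC, hδ, hδ2, h⟩ := main_bd hk hP
    have hL : ∀ w > 1 - δ, LInt (dd k P) w := fun w hw => dd_lint hC h hw
    have h1 : Gx k P =ᶠ[𝓝 z] lapC (dd k P) := by
      have hz' : 1 - δ < z.re := by rw [hz1, Complex.one_re]; linarith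
      filter_upwards [(isOpen_half (1 - δ)).mem_nhds hz'] with w hw
      exact (Gx_eq hk P (by linarith) hL w hw).symm
    rw [h1.differentiableAt_iff]
    exact lapC_differentiableAt (dd_meas k P) hL (by rw [hz1, Complex.one_re]; linarith)
  · have h1 : Gx k P =ᶠ[𝓝 z] G0 k P := by
      filter_upwards [isOpen_compl_singleton.mem_nhds (show z ∈ ({1}ᶜ : Set ℂ) from hz1)] with w hw
      exact Gx_ne hw
    rw [h1.differentiableAt_iff]
    have hz0 : z ≠ 0 := by
      rintro rfl
      rw [Complex.zero_re] at hz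
      exact lt_irrefl _ hz
    unfold G0
    exact (((differentiableAt_riemannZeta hz1).pow k).div (by fun_prop) hz0).sub (Hp_diff P hz1)

end Pool.Agent.Y853.PZ
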