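import Pool.Agent.Y853.PZ.Fin
import Pool.Agent.Y853.LC.Fin

set_option autoImplicit false

/-! Exponents in the divisor problem of Piltz and zeros of `Q(d/ds) ζ - A` to the left of `1 - θ`. -/

namespace Pool.Agent.Y853.PZ

open Filter Topology Set Polynomial MeasureTheory


theorem norm_abs (θ t : ℝ) :
    ‖riemannZeta (θ + t * Complex.I)‖ = ‖riemannZeta (θ + (|t| : ℝ) * Complex.I)‖ := by
  rcases le_total 0 t with h | h
  · rw [abs_of_nonneg h]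
  · rw [abs_of_nonpos h]
    have e : ((θ : ℂ) + ((-t : ℝ) : ℂ) * Complex.I) = (starRingEnd ℂ) (θ + (t : ℂ) * Complex.I) := by
      simp
    rw [e, riemannZeta_conj, Complex.norm_conj]

/-- a bound for large `t` gives a bound for `|t| ≥ 1` -/
theorem all_of_large {θ ε T0 : ℝ} (hε : 0 ≤ ε)
    (h : ∀ T : ℝ, T0 ≤ T → ‖riemannZeta (θ + T * Complex.I)‖ ≤ T ^ ε) :
    ∃ C : ℝ, ∀ t : ℝ, 1 ≤ |t| → ‖riemannZeta (θ + t * Complex.I)‖ ≤ C * |t| ^ ε := by
  obtain ⟨M, hM⟩ := (isCompact_Icc (a := (1 : ℝ)) (b := T0)).exists_bound_of_continuousOn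
    (f := fun t : ℝ => riemannZeta (θ + t * Complex.I)) (by
      intro t ht
      have hne : (θ + t * Complex.I : ℂ) ≠ 1 := SP.im_ne_one (by simp; linarith [ht.1])
      have h4 : ContinuousAt riemannZeta (θ + t * Complex.I) :=
        (differentiableAt_riemannZeta hne).continuousAt
      have h5 : ContinuousAt (fun t : ℝ => (θ + t * Complex.I : ℂ)) t := by fun_prop
      exact (ContinuousAt.comp (g := riemannZeta) (f := fun t : ℝ => (θ + t * Complex.I : ℂ)) h4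
        h5).continuousWithinAt)
  refine ⟨max 1 M, fun t ht => ?_⟩
  rw [norm_abs]
  have h5 : 1 ≤ |t| ^ ε := Real.one_le_rpow ht hε
  rcases le_total T0 |t| with hc | hc
  · calc _ ≤ 1 * |t| ^ ε := by rw [one_mul]; exact h _ hc
      _ ≤ _ := by gcongr; exact le_max_left _ _
  · calc _ ≤ M := hM |t| ⟨ht, hc⟩
      _ ≤ max 1 M * 1 := by rw [mul_one]; exact le_max_right _ _
      _ ≤ _ := by gcongr

/-- few zeros give a good exponent -/
theorem sup_of_few {k : ℕ} (hk : 1 ≤ k) {P : ℝ[X]} (hP : IsMain k P) {Q : ℂ[X]} {A : ℂ → ℂ}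
    (hQ : Q ≠ 0) (hA : SP.Tame A) {ε : ℝ} (hε : 0 < ε) :
    ∃ η W : ℝ, 0 < η ∧ 0 < W ∧ ∀ θ : ℝ, 1 / 2 ≤ θ → θ ≤ 1 →
      (∃ T0 : ℝ, ∀ T : ℝ, T0 ≤ T → LC.Few (SP.FF Q A) θ η T W) →
      ∃ C : ℝ, ∀ x : ℝ, 1 ≤ x → |R k P x| ≤ C * x ^ (θ + ε) := by
  have hk0 : (0 : ℝ) < k := by exact_mod_cast hk
  obtain ⟨s, hs, hs1⟩ : ∃ s : ℝ, 0 < s ∧ 4 * s ≤ ε := ⟨ε / 4, by positivity, by linarith⟩
  obtain ⟨η, W, T1, hη, hW, hT1, h1⟩ := LC.law1 hQ hA (ε := s / k) (by positivity)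
  refine ⟨η, W, hη, hW, fun θ hθ hθ1 h => ?_⟩
  obtain ⟨T0, hT0⟩ := h
  obtain ⟨C0, hC0⟩ := all_of_large (θ := θ) (ε := s / k) (T0 := max T0 T1) (by positivity)
    (fun T hT => h1 θ T hθ hθ1 ((le_max_right _ _).trans hT) (hT0 T ((le_max_left _ _).trans hT)))
  obtain ⟨C, hC, hst⟩ := strip (σ := θ) (by linarith) (by linarith) (by positivity) hC0
  have hgrow : ∀ z : ℂ, θ ≤ z.re → z.re ≤ 2 → 1 ≤ |z.im| →
      ‖riemannZeta z‖ ^ k ≤ C ^ k * |z.im| ^ s := by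
    intro z h1 h2 h3
    calc ‖riemannZeta z‖ ^ k ≤ (C * |z.im| ^ (s / k)) ^ k := by
          gcongr
          exact hst z h1 h2 h3
      _ = C ^ k * |z.im| ^ s := by
          rw [mul_pow, ← Real.rpow_natCast (|z.im| ^ (s / k)), ← Real.rpow_mul (abs_nonneg _)]
          congr 2
          field_simp
  obtain ⟨B, hB⟩ := point hk hP (σ := θ) (η := s) (κ := 2 * s) (C := C ^ k) (by linarith)
    hθ1 hs.le (by linarith) (by positivity) hgrow hs
  have hB0 : 0 ≤ B := by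
    have := (abs_nonneg _).trans (hB 1 le_rfl)
    rwa [Real.one_rpow, mul_one] at this
  refine ⟨B, fun x hx => (hB x hx).trans ?_⟩
  refine mul_le_mul_of_nonneg_left (Real.rpow_le_rpow_of_exponent_le hx ?_) hB0
  have e1 : (θ + 2 * s) / (1 + 2 * s) ≤ θ + 2 * s := div_le_self (by linarith) (by linarith)
  linarith

/-- a good exponent for one large `K` gives few zeros -/
theorem few_of_side {P : ℕ → ℝ[X]} (hP : ∀ k : ℕ, 1 ≤ k → IsMain k (P k)) {Q : ℂ[X]} {A : ℂ → ℂ}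
    (hQ : Q ≠ 0) (hA : SP.Tame A) {ε : ℝ} (hε : 0 < ε) :
    ∃ K0 : ℕ, ∀ K : ℕ, K0 ≤ K → ∀ θ : ℝ, 1 / 2 ≤ θ → θ < 1 →
      (∃ e : ℝ, |e| = 1 ∧ Side e K (P K) θ) →
      ∃ T0 : ℝ, ∀ T : ℝ, T0 ≤ T → LC.Few (SP.FF Q A) θ ε T 1 := by
  obtain ⟨η, W, T1, hη, hW, hT1, h1⟩ := LC.law2 hQ hA (ε := ε / 2) (by positivity)
  obtain ⟨n, hn⟩ := exists_nat_ge (2 / η)
  refine ⟨max n 1, fun K hK θ hθ hθ1 h => ?_⟩
  obtain ⟨e, he, hS⟩ := h
  have hK1 : 1 ≤ K := (le_max_right _ _).trans hK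
  have hKn : n ≤ K := (le_max_left _ _).trans hK
  have hK0 : (0 : ℝ) < K := by exact_mod_cast hK1
  have hKη : (2 : ℝ) / K ≤ η := by
    have h6 : (2 : ℝ) / η ≤ K := hn.trans (by exact_mod_cast hKn)
    rw [div_le_iff₀ hK0]
    rw [div_le_iff₀ hη] at h6
    linarith
  obtain ⟨σ, hσ, hσ1, hσ2⟩ : ∃ σ : ℝ, θ < σ ∧ σ ≤ 1 ∧ σ ≤ θ + ε / 2 :=
    ⟨min 1 (θ + ε / 2), lt_min hθ1 (by linarith), min_le_left _ _, min_le_right _ _⟩
  obtain ⟨C, hC, hg⟩ := grow hK1 (P K) (by linarith)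
    (abs_lint hK1 (hP K hK1) (by linarith) he hS) hσ
  refine ⟨max T1 (max (2 * C) (W + 2)), fun T hT => ?_⟩
  have g1 : T1 ≤ T := (le_max_left _ _).trans hT
  have g2 : 2 * C ≤ T := ((le_max_left _ _).trans (le_max_right _ _)).trans hT
  have g3 : W + 2 ≤ T := ((le_max_right _ _).trans (le_max_right _ _)).trans hT
  have hT0 : 0 < T := by linarith
  have hf : LC.Few (SP.FF Q A) σ (ε / 2) T 1 := by
    refine h1 σ T (by linarith) hσ1 g1 fun v hv => ?_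
    have hv' := abs_le.1 hv
    have hv1 : 1 ≤ v := by linarith
    have h3 := hg (σ + v * Complex.I) (by simp) (by simp; linarith) (by
      simpa using hv1.trans (le_abs_self v))
    have h4 : |(σ + v * Complex.I : ℂ).im| = v := by simp; linarith
    rw [h4] at h3
    have h5 : ‖riemannZeta (σ + v * Complex.I)‖ =
        (‖riemannZeta (σ + v * Complex.I)‖ ^ K) ^ (1 / K : ℝ) := by
      rw [← Real.rpow_natCast, ← Real.rpow_mul (norm_nonneg _), mul_one_div_cancel hK0.ne',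
        Real.rpow_one]
    rw [h5]
    calc (‖riemannZeta (σ + v * Complex.I)‖ ^ K) ^ (1 / K : ℝ) ≤ (T ^ (2 : ℝ)) ^ (1 / K : ℝ) := by
          refine Real.rpow_le_rpow (by positivity) (h3.trans ?_) (by positivity)
          rw [Real.rpow_two]
          nlinarith
      _ = T ^ (2 / K : ℝ) := by
          rw [← Real.rpow_mul hT0.le]; congr 1; ring
      _ ≤ T ^ η := Real.rpow_le_rpow_of_exponent_le (by linarith) hKη
  intro S hS
  have hlog : 0 ≤ Real.log T := Real.log_nonneg (by linarith)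
  refine (hf S fun s hs => ?_).trans (mul_le_mul_of_nonneg_right (by linarith) hlog)
  obtain ⟨g5, g6, g7, g8⟩ := hS s hs
  exact ⟨g5, g6, by linarith, g8⟩

theorem sup_iff_few {P : ℕ → ℝ[X]} (hP : ∀ k : ℕ, 1 ≤ k → IsMain k (P k)) {Q : ℂ[X]} {A : ℂ → ℂ}
    (hQ : Q ≠ 0) (hA : SP.Tame A) {θ : ℝ} (hθ : 1 / 2 ≤ θ) (hθ1 : θ < 1) :
    (∀ k : ℕ, 1 ≤ k → Sup k (P k) θ) ↔
      ∀ ε : ℝ, 0 < ε → ∃ T0 : ℝ, ∀ T : ℝ, T0 ≤ T → LC.Few (SP.FF Q A) θ ε T 1 := by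
  constructor
  · intro h ε hε
    obtain ⟨K0, h0⟩ := few_of_side hP hQ hA hε
    have hm : 1 ≤ max K0 1 := le_max_right _ _
    exact h0 (max K0 1) (le_max_left _ _) θ hθ hθ1 ⟨1, abs_one,
      side_of_mean hm (hP _ hm) (by rw [abs_one])
        (mean_of_sup hm (hP _ hm) (by linarith) (h _ hm))⟩
  · intro h
    have hE := (LC.glob hQ hA hθ hθ1.le).2 h
    refine ((tfae hP (by linarith) hθ1).out 2 0).1 ?_
    intro σ hσ ε hε
    obtain ⟨C, hC⟩ := hE ε hε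
    obtain ⟨C', hC', hst⟩ := strip (σ := θ) (ε := ε) (C := C) (by linarith) (by linarith) hε.le
      (fun t ht => by rw [norm_abs]; exact hC |t| ht)
    obtain ⟨B, hB1, hB⟩ := zeta_two_bd
    rcases le_or_gt σ 2 with h2 | h2
    · refine ⟨C', fun t ht => ?_⟩
      have := hst (σ + t * Complex.I) (by simp; linarith) (by simpa using h2) (by simpa using ht)
      simpa using this
    · refine ⟨B, fun t ht => ?_⟩
      have h3 := hB (σ + t * Complex.I) (by simp; linarith)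
      have h5 : 1 ≤ |t| ^ ε := Real.one_le_rpow ht hε.le
      nlinarith

end Pool.Agent.Y853.PZ
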